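import Pool.Agent.K3h30.VD.Moment

/-!
# A difference of the second moments below one half is zero
-/

set_option autoImplicit false
set_option linter.all false

namespace Pool.Agent.K3h30.VD

open Finset

section

variable (n : ℕ) (h : ℕ → ℕ) (ν : ℕ → ℝ) (hm : ∀ i, i + 1 < n → ν i ≤ ν (i + 1))
  (hle : ∀ k ≤ n, ∑ i ∈ range k, (h i : ℝ) ≤ ∑ i ∈ range k, ν i)
  (heq : ∑ i ∈ range n, ν i = ∑ i ∈ range n, (h i : ℝ))

include hm hle heq in
/-- the difference of the second moments is at least the sum of the `θ (1 - θ)`, for the fractional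
parts `θ` of the slopes -/
theorem frac_le : ∑ i ∈ range n, Int.fract (ν i) * (1 - Int.fract (ν i)) ≤
    ∑ i ∈ range n, (h i : ℝ) ^ 2 - ∑ i ∈ range n, ν i ^ 2 := by
  have key : ∑ i ∈ range n, (2 * (⌊ν i⌋ : ℝ) + 1) * (ν i - h i) ≤ 0 := by
    rcases n with _ | n
    · simp
    · have h1 := abel_le (n + 1) (fun i => 2 * (⌊ν i⌋ : ℝ) + 1) (fun i => ν i - h i)
        (fun i hi => by
          have h2 : ⌊ν i⌋ ≤ ⌊ν (i + 1)⌋ := Int.floor_mono (hm i hi)
          have h3 : (⌊ν i⌋ : ℝ) ≤ (⌊ν (i + 1)⌋ : ℝ) := by exact_mod_cast h2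
          linarith)
        (fun k hk => by
          rw [sum_sub_distrib]
          linarith [hle k hk]) n le_rfl
      rw [sum_sub_distrib, heq, sub_self, mul_zero] at h1
      exact h1
  have e : ∑ i ∈ range n, (h i : ℝ) ^ 2 - ∑ i ∈ range n, ν i ^ 2 =
      ∑ i ∈ range n, (((h i : ℝ) - ⌊ν i⌋) * ((h i : ℝ) - ⌊ν i⌋ - 1) +
        Int.fract (ν i) * (1 - Int.fract (ν i)) - (2 * (⌊ν i⌋ : ℝ) + 1) * (ν i - h i)) := by
    rw [← sum_sub_distrib]
    apply sum_congr rfl
    intro i _
    unfold Int.fract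
    ring
  rw [e, sum_sub_distrib, sum_add_distrib]
  have h2 : 0 ≤ ∑ i ∈ range n, ((h i : ℝ) - ⌊ν i⌋) * ((h i : ℝ) - ⌊ν i⌋ - 1) := by
    apply sum_nonneg
    intro i _
    have h3 : 0 ≤ ((h i : ℤ) - ⌊ν i⌋) * ((h i : ℤ) - ⌊ν i⌋ - 1) := by
      rcases le_or_gt ((h i : ℤ) - ⌊ν i⌋) 0 with h4 | h4
      · nlinarith
      · have h5 : (1 : ℤ) ≤ (h i : ℤ) - ⌊ν i⌋ := h4
        nlinarith
    exact_mod_cast h3
  linarith

theorem mono_of {n : ℕ} {ν : ℕ → ℝ} (hm : ∀ i, i + 1 < n → ν i ≤ ν (i + 1)) {i j : ℕ} (hij : i ≤ j)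
    (hj : j < n) : ν i ≤ ν j := by
  induction j, hij using Nat.le_induction with
  | base => exact le_rfl
  | succ j hij ih => exact (ih (by omega)).trans (hm j hj)

include hm hle heq in
/-- **the gap**: if the vertices of the polygon with the slopes `ν` have integral coordinates, and the
difference of the second moments is smaller than one half, then the polygons are the same -/
theorem gap_half (hv : ∀ k, 0 < k → k < n → ν (k - 1) < ν k → ∃ m : ℤ, ∑ i ∈ range k, ν i = m)
    (hD : ∑ i ∈ range n, (h i : ℝ) ^ 2 - ∑ i ∈ range n, ν i ^ 2 < 1 / 2) (i : ℕ) (hi : i < n) :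
    ν i = h i := by
  classical
  have hf0 : ∀ j, 0 ≤ Int.fract (ν j) * (1 - Int.fract (ν j)) := fun j =>
    mul_nonneg (Int.fract_nonneg _) (by linarith [Int.fract_lt_one (ν j)])
  have hfrac := frac_le n h ν hm hle heq
  -- all slopes are integers
  have hint : ∀ j < n, Int.fract (ν j) = 0 := by
    intro j hj
    by_contra hne
    set s := ν j with hs
    let A := (range n).filter fun i => ν i = s
    have hA : A.Nonempty := ⟨j, mem_filter.2 ⟨mem_range.2 hj, rfl⟩⟩
    have ha := mem_filter.1 (A.min'_mem hA)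
    have hb := mem_filter.1 (A.max'_mem hA)
    have ha1 := mem_range.1 ha.1
    have hb1 := mem_range.1 hb.1
    set a := A.min' hA with hadef
    set b := A.max' hA with hbdef
    have hab : a ≤ b := A.min'_le b (A.max'_mem hA)
    have hin : ∀ i, a ≤ i → i ≤ b → ν i = s := by
      intro i h1 h2
      apply le_antisymm
      · rw [← hb.2]
        exact mono_of hm h2 hb1
      · rw [← ha.2]
        exact mono_of hm h1 (by omega)
    have hNa : ∃ m : ℤ, ∑ i ∈ range a, ν i = m := by
      rcases Nat.eq_zero_or_pos a with h0 | h0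
      · exact ⟨0, by rw [h0]; simp⟩
      · apply hv a h0 ha1
        have h1 : ν (a - 1) ≤ ν a := mono_of hm (Nat.sub_le _ _) ha1
        rcases h1.lt_or_eq with h2 | h2
        · exact h2
        · exfalso
          have h3 : a - 1 ∈ A := mem_filter.2 ⟨mem_range.2 (by omega), by rw [h2, ha.2]⟩
          have := A.min'_le _ h3
          omega
    have hNb : ∃ m : ℤ, ∑ i ∈ range (b + 1), ν i = m := by
      rcases Nat.lt_or_ge (b + 1) n with h0 | h0
      · apply hv (b + 1) (Nat.succ_pos _) h0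
        rw [Nat.add_sub_cancel]
        have h1 : ν b ≤ ν (b + 1) := hm b h0
        rcases h1.lt_or_eq with h2 | h2
        · exact h2
        · exfalso
          have h3 : b + 1 ∈ A := mem_filter.2 ⟨mem_range.2 h0, by rw [← h2, hb.2]⟩
          have := A.le_max' _ h3
          omega
      · have h1 : b + 1 = n := by omega
        refine ⟨((∑ i ∈ range n, h i : ℕ) : ℤ), ?_⟩
        rw [h1, heq]
        push_cast
        rfl
    obtain ⟨m₁, hm1⟩ := hNa
    obtain ⟨m₂, hm2⟩ := hNb
    set L : ℕ := b + 1 - a with hL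
    have hsum : ∑ i ∈ range (b + 1), ν i = ∑ i ∈ range a, ν i + L * s := by
      have h1 := Finset.sum_range_add_sum_Ico ν (show a ≤ b + 1 by omega)
      rw [← h1]
      congr 1
      rw [sum_congr rfl (fun i hi => hin i (mem_Ico.1 hi).1 (by have := (mem_Ico.1 hi).2; omega)),
        sum_const, Nat.card_Ico, nsmul_eq_mul]
    -- the integer `r = L θ`
    set θ := Int.fract s with hθ
    have hθ0 : 0 < θ := lt_of_le_of_ne (Int.fract_nonneg _) (Ne.symm hne)
    have hθ1 : θ < 1 := Int.fract_lt_one _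
    have hLpos : (0 : ℝ) < L := by
      have : 0 < L := by omega
      exact_mod_cast this
    obtain ⟨r, hr⟩ : ∃ r : ℤ, (L : ℝ) * θ = r := by
      refine ⟨m₂ - m₁ - L * ⌊s⌋, ?_⟩
      have h1 : θ = s - ⌊s⌋ := rfl
      rw [h1]
      push_cast
      linarith
    have hr0 : (0 : ℤ) < r := by
      have : (0 : ℝ) < r := by rw [← hr]; positivity
      exact_mod_cast this
    have hrL : r < (L : ℤ) := by
      have : (r : ℝ) < (L : ℝ) := by
        rw [← hr]
        nlinarith
      exact_mod_cast this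
    have h1 : (L : ℝ) * (θ * (1 - θ)) ≤ ∑ i ∈ range n, Int.fract (ν i) * (1 - Int.fract (ν i)) := by
      have h2 : ∑ i ∈ Ico a (b + 1), Int.fract (ν i) * (1 - Int.fract (ν i)) = L * (θ * (1 - θ)) := by
        rw [sum_congr rfl (g := fun _ => θ * (1 - θ)) (fun i hi => by
          rw [hin i (mem_Ico.1 hi).1 (by have := (mem_Ico.1 hi).2; omega)]),
          sum_const, Nat.card_Ico, nsmul_eq_mul]
      rw [← h2]
      apply sum_le_sum_of_subset_of_nonneg
      · intro i hi
        have := (mem_Ico.1 hi).2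
        exact mem_range.2 (by omega)
      · intro i _ _
        exact hf0 i
    have h2 : (1 : ℝ) / 2 ≤ (L : ℝ) * (θ * (1 - θ)) := by
      have h3 : (L : ℝ) * (θ * (1 - θ)) * L = r * (L - r) := by
        rw [← hr]
        ring
      have h4 : ((L : ℤ) - 1 : ℤ) ≤ r * (L - r) := by nlinarith
      have h5 : ((L : ℝ) - 1) ≤ r * (L - r) := by exact_mod_cast h4
      have h6 : (2 : ℝ) ≤ L := by
        have : (2 : ℤ) ≤ L := by omega
        exact_mod_cast this
      rw [← h3] at h5
      by_contra hcon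
      rw [not_le] at hcon
      nlinarith
    linarith
  -- the difference is an integer
  have hfl : ∀ j < n, ν j = (⌊ν j⌋ : ℝ) := by
    intro j hj
    have h1 := hint j hj
    unfold Int.fract at h1
    linarith
  have hmom := moment n (fun i => (h i : ℝ)) ν hm hle heq
  have hZ : ∃ z : ℤ, ∑ i ∈ range n, (h i : ℝ) ^ 2 - ∑ i ∈ range n, ν i ^ 2 = z := by
    refine ⟨∑ i ∈ range n, (h i : ℤ) ^ 2 - ∑ i ∈ range n, ⌊ν i⌋ ^ 2, ?_⟩
    push_cast
    congr 1
    apply sum_congr rfl
    intro j hj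
    rw [← hfl j (mem_range.1 hj)]
  obtain ⟨z, hz⟩ := hZ
  have hsq : 0 ≤ ∑ i ∈ range n, ((h i : ℝ) - ν i) ^ 2 := sum_nonneg fun i _ => sq_nonneg _
  have hz0 : z ≤ 0 := by
    have h1 : (z : ℝ) < 1 := by rw [← hz]; linarith
    have h2 : z < 1 := by exact_mod_cast h1
    omega
  have hz1 : (z : ℝ) ≤ 0 := by exact_mod_cast hz0
  have h0 : ∑ i ∈ range n, ((h i : ℝ) - ν i) ^ 2 = 0 := le_antisymm (by linarith) hsq
  rw [Finset.sum_eq_zero_iff_of_nonneg fun i _ => sq_nonneg _] at h0
  have h1 := h0 i (mem_range.2 hi)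
  have h2 := pow_eq_zero_iff (two_ne_zero) |>.1 h1
  linarith

end

end Pool.Agent.K3h30.VD
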