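import Pool.Agent.K3h30.VD.Gen
import Pool.Agent.K3h30.VD.Gap
import Pool.Agent.K3h30.OC.TauDefs
import Pool.Agent.W850.Ord.LowDens

/-!
# The bound for the generated motives at a good place
-/

set_option autoImplicit false
set_option linter.all false

namespace Pool.Agent.K3h30.VD

open NumberField IsDedekindDomain Polynomial Filter Topology Finset
open Pool.Agent.W401.Cheb Pool.Agent.W528.Ord Pool.Agent.K3h30.NH Pool.Agent.K3h30.OC
open Pool.Agent.W850.Ord
open Pool.Agent.R915.Ord (Piece)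
open Pool.Agent.W528.Ord.MultSystem (mv IsDeg1 IsOver)

theorem ho_coe_sum (l : List ℕ) : (ho (l : Multiset ℕ)).sum = ((l.sum : ℕ) : ℝ) := by
  unfold ho
  rw [Multiset.map_coe, Multiset.sum_coe, Nat.cast_list_sum]

theorem s2_ho_coe (l : List ℕ) :
    s2 (ho (l : Multiset ℕ)) = ∑ i ∈ range l.length, ((l.getD i 0 : ℕ) : ℝ) ^ 2 := by
  conv_lhs => rw [← range_map l 0]
  unfold s2 ho
  rw [Multiset.map_map, Multiset.map_map]
  rfl

section

variable {K : Type} [Field K] [NumberField K] {ℓ : ℕ} [Fact ℓ.Prime]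

section piece

variable {A : MotSystem K ℓ} {χ : GK K →* (PadicAlgCl ℓ)ˣ} {S : Finset ℕ} (hA : A.IsMotive χ S)
  {v : HeightOneSpectrum (𝓞 K)} (hv : IsDeg1 S v)
  {Q : Ideal (𝓞 (AlgebraicClosure K))} (hQ : IsOver Q v)
  {p : ℕ} [hpf : Fact p.Prime] (hpe : Ideal.absNorm v.asIdeal = p) {τ : AlgebraicClosure K →+* PadicAlgCl p}
  (hτ : ∀ x : 𝓞 (AlgebraicClosure K), x ∈ Q ↔ ‖τ (x : AlgebraicClosure K)‖ < 1)

theorem norms_piece (σ : A.E →+* AlgebraicClosure K) :
    norms τ v (Obj.piece A σ) = (A.poly v (τ.comp σ)).roots.map fun y => ‖y‖ := by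
  have e : A.poly v (τ.comp σ) = (A.poly v σ).map τ := by
    unfold MotSystem.poly
    rw [Polynomial.map_map]
    rfl
  unfold norms
  rw [e, Splits.roots_map (IsAlgClosed.splits _), Multiset.map_map]
  rfl

include hA hv in
theorem card_piece (σ : A.E →+* AlgebraicClosure K) :
    Multiset.card ((Obj.piece A σ).eig v) = A.n := by
  obtain ⟨hm, hn⟩ := hA.isMonic v hv
  show Multiset.card (A.poly v σ).roots = A.n
  rw [splits_iff_card_roots.mp (IsAlgClosed.splits _)]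
  unfold MotSystem.poly
  rw [hm.natDegree_map, hn]

include hA hv hQ hpe hτ in
theorem fine_piece (σ : A.E →+* AlgebraicClosure K) : Fine τ v (Obj.piece A σ) := by
  have hc := card_piece hA hv σ
  refine ⟨?_, ?_, ?_⟩
  · rw [hc]
    show A.n = Multiset.card ((A.h σ : Multiset ℕ))
    rw [Multiset.coe_card, (hA.isHodge σ).1]
  · intro x hx h0
    have h1 : (A.poly v σ).IsRoot x := isRoot_of_mem_roots hx
    rw [h0, IsRoot, ← coeff_zero_eq_eval_zero] at h1
    apply coeff_ne hA hv hQ hpe hτ σ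
    have e : A.poly v (τ.comp σ) = (A.poly v σ).map τ := by
      unfold MotSystem.poly
      rw [Polynomial.map_map]
      rfl
    rw [e, coeff_map, h1, map_zero]
  · have h1 := (isPolygon_newt hA hv hQ hpe hτ).ends σ
    have h2 : Multiset.card (norms τ v (Obj.piece A σ)) = A.n := by rw [card_norms, hc]
    have h3 := sum_nu (p := p) (norms τ v (Obj.piece A σ))
    rw [h2] at h3
    rw [h3]
    show _ = (ho (A.h σ : Multiset ℕ)).sum
    rw [ho_coe_sum, norms_piece]
    have h4 : A.hp σ A.n = (A.h σ).sum := by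
      unfold MotSystem.hp
      rw [List.take_of_length_le (le_of_eq (hA.isHodge σ).1)]
    rw [h4] at h1
    exact h1

include hA hv in
theorem gp_piece (σ : A.E →+* AlgebraicClosure K) :
    gp τ v (Obj.piece A σ) = gap A.n (A.h σ) (newt A v τ σ) := by
  have hc := card_piece hA hv σ
  have h2 : Multiset.card (norms τ v (Obj.piece A σ)) = A.n := by rw [card_norms, hc]
  have h3 := s2_nu (p := p) (norms τ v (Obj.piece A σ))
  rw [h2] at h3
  unfold gp gap
  rw [h3]
  have e : (Obj.piece A σ).slopes = (A.h σ : Multiset ℕ) := rfl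
  rw [e, s2_ho_coe, (hA.isHodge σ).1, norms_piece]
  rfl

end piece

section gen

variable {ι : Type} [Fintype ι] {A : ι → MotSystem K ℓ} {χ : GK K →* (PadicAlgCl ℓ)ˣ} {S : Finset ℕ}
  (hA : ∀ i, (A i).IsMotive χ S) {v : HeightOneSpectrum (𝓞 K)} (hvS : IsDeg1 S v)
  {T : Finset ℕ} (hvT : IsDeg1 T v)
  {Q : Ideal (𝓞 (AlgebraicClosure K))} (hQ : IsOver Q v)
  {p : ℕ} [hpf : Fact p.Prime] (hpe : Ideal.absNorm v.asIdeal = p) {τ : AlgebraicClosure K →+* PadicAlgCl p}
  (hτ : ∀ x : 𝓞 (AlgebraicClosure K), x ∈ Q ↔ ‖τ (x : AlgebraicClosure K)‖ < 1)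

include hA hvS hvT hQ hpe hτ in
/-- **the second moments of the generated motives** -/
theorem gen_bound {U : Obj K} {c : Piece A → ℝ} (h : Gen A T U c) :
    Fine τ v U ∧ gp τ v U ≤ ∑ x : Piece A, c x *
      gap (A x.1).n ((A x.1).h x.2) (newt (A x.1) v τ x.2) := by
  classical
  have hg : ∀ x : Piece A, 0 ≤ gap (A x.1).n ((A x.1).h x.2) (newt (A x.1) v τ x.2) := fun x =>
    gap_nonneg (isPolygon_newt (hA x.1) hvS hQ hpe hτ) x.2
  induction h with
  | piece x c h1 h0 =>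
    refine ⟨fine_piece (hA x.1) hvS hQ hpe hτ x.2, ?_⟩
    rw [gp_piece (hA x.1) hvS, Finset.sum_eq_single x]
    · rw [h1, one_mul]
    · intro y _ hy
      rw [h0 y hy, zero_mul]
    · intro hx
      exact absurd (Finset.mem_univ x) hx
  | unit =>
    refine ⟨⟨by simp [Obj.unit], by simp [Obj.unit], by simp [Obj.unit, norms, nu, ho]⟩, ?_⟩
    simp [gp, Obj.unit, norms, nu, ho, s2]
  | iso U V c h hV ih =>
    obtain ⟨h1, h2⟩ := ih
    have e1 : norms τ v U = norms τ v V := by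
      unfold norms
      rw [h.2 v hvT]
    refine ⟨⟨?_, ?_, ?_⟩, ?_⟩
    · rw [h.2 v hvT, h.1, h1.card]
    · rw [h.2 v hvT]
      exact h1.ne
    · rw [e1, h.1, h1.sum]
    · unfold gp
      rw [e1, h.1]
      exact h2
  | sum U V c c' hU hV ih1 ih2 =>
    refine ⟨fine_sum ih1.1 ih2.1, ?_⟩
    rw [gp_sum]
    simp only [add_mul]
    rw [Finset.sum_add_distrib]
    exact add_le_add ih1.2 ih2.2
  | tensor U V c c' hU hV ih1 ih2 =>
    refine ⟨fine_tensor ih1.1 ih2.1, ?_⟩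
    rw [gp_tensor ih1.1 ih2.1]
    simp only [add_mul, mul_assoc]
    rw [Finset.sum_add_distrib, ← Finset.mul_sum, ← Finset.mul_sum]
    exact add_le_add (mul_le_mul_of_nonneg_left ih1.2 (Nat.cast_nonneg _))
      (mul_le_mul_of_nonneg_left ih2.2 (Nat.cast_nonneg _))
  | twist U c j hU ih =>
    refine ⟨(fine_twist hpe j).2 ih.1, ?_⟩
    rw [gp_twist hpe j ih.1]
    exact ih.2
  | untwist U c j hU ih =>
    have h1 := (fine_twist hpe j).1 ih.1
    refine ⟨h1, ?_⟩
    rw [← gp_twist hpe j h1]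
    exact ih.2
  | dual U c w hw hU ih =>
    refine ⟨fine_dual hpe w hw ih.1, ?_⟩
    rw [gp_dual hpe w hw ih.1]
    exact ih.2
  | ext U c k hU ih =>
    refine ⟨fine_ext k ih.1, ?_⟩
    rw [gp_ext k ih.1]
    simp only [mul_assoc]
    rw [← Finset.mul_sum]
    exact mul_le_mul_of_nonneg_left ih.2 (Nat.cast_nonneg _)
  | summand U U' c hU hU' h ih =>
    obtain ⟨h1, h2⟩ := fine_summand hpe hQ hτ hvT hU hU' ih.1
    refine ⟨h1, ?_⟩
    have h3 := mazur_gp hpe hQ hτ hvT hU' h2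
    have h4 := ih.2
    rw [gp_sum] at h4
    linarith
  | factor U U' c hU hU' h0 h ih =>
    have hc := h.nonneg
    by_cases hU0 : U.slopes = 0
    · have hc0 : Multiset.card (U.eig v) = 0 := by
        rw [mazur_card hpe hQ hτ hvT hU, hU0, Multiset.card_zero]
      have he0 : U.eig v = 0 := Multiset.card_eq_zero.1 hc0
      refine ⟨⟨by rw [hc0, hU0, Multiset.card_zero], by rw [he0]; simp, ?_⟩, ?_⟩
      · simp [norms, he0, hU0, nu, ho]
      · have e : gp τ v U = 0 := by simp [gp, norms, he0, hU0, nu, ho, s2]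
        rw [e]
        exact Finset.sum_nonneg fun x _ => mul_nonneg (div_nonneg (hc x) (Nat.cast_nonneg _)) (hg x)
    · obtain ⟨h1, h2⟩ := fine_factor hpe hQ hτ hvT hU hU' h0 hU0 ih.1
      refine ⟨h1, ?_⟩
      have h3 := mazur_gp hpe hQ hτ hvT hU' h2
      have h4 := ih.2
      rw [gp_tensor h1 h2] at h4
      have hpos : (0 : ℝ) < Multiset.card U'.slopes := by exact_mod_cast Multiset.card_pos.2 h0
      have e : ∀ x : Piece A, c x / Multiset.card U'.slopes *
          gap (A x.1).n ((A x.1).h x.2) (newt (A x.1) v τ x.2) =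
          c x * gap (A x.1).n ((A x.1).h x.2) (newt (A x.1) v τ x.2) / Multiset.card U'.slopes := by
        intro x
        ring
      simp only [e]
      rw [← Finset.sum_div, le_div_iff₀ hpos]
      have h5 : 0 ≤ (Multiset.card U.slopes : ℝ) * gp τ v U' := mul_nonneg (Nat.cast_nonneg _) h3
      linarith

theorem sup_nonneg {c : Piece A → ℝ} (hc : ∀ x, 0 ≤ c x) (i : ι) :
    0 ≤ ⨆ σ : (A i).E →+* AlgebraicClosure K, c ⟨i, σ⟩ := Real.iSup_nonneg fun σ => hc _

theorem bnd_mono {c : Piece A → ℝ} (hc : ∀ x, 0 ≤ c x) {t t' : ι → ℝ} (h : ∀ i, t i ≤ t' i) :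
    bnd c t ≤ bnd c t' :=
  Finset.sum_le_sum fun i _ => mul_le_mul_of_nonneg_left (h i) (sup_nonneg hc i)

include hA in
theorem sum_le_bnd {v : HeightOneSpectrum (𝓞 K)} (hv : GoodPlace A S v)
    {Q : Ideal (𝓞 (AlgebraicClosure K))} (hQ : IsOver Q v)
    {p : ℕ} [hpf : Fact p.Prime] (hpe : Ideal.absNorm v.asIdeal = p)
    {τ : AlgebraicClosure K →+* PadicAlgCl p}
    (hτ : ∀ x : 𝓞 (AlgebraicClosure K), x ∈ Q ↔ ‖τ (x : AlgebraicClosure K)‖ < 1)
    {γ : GK K} (hγ : ∀ x : 𝓞 (AlgebraicClosure K), γ • x - x ^ Ideal.absNorm v.asIdeal ∈ Q)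
    {c : Piece A → ℝ} (hc : ∀ x, 0 ≤ c x) :
    ∑ x : Piece A, c x * gap (A x.1).n ((A x.1).h x.2) (newt (A x.1) v τ x.2) ≤
      bnd c fun i => defect (A i) γ := by
  unfold bnd
  rw [Fintype.sum_sigma]
  apply Finset.sum_le_sum
  intro i _
  have hF := isFamily_newt A χ S hA hv hQ hpe hτ hγ i
  refine le_trans ?_ (mul_le_mul_of_nonneg_left (le_defect hF) (sup_nonneg hc i))
  rw [Finset.mul_sum]
  apply Finset.sum_le_sum
  intro σ _
  exact mul_le_mul_of_nonneg_right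
    (le_ciSup (f := fun σ : (A i).E →+* AlgebraicClosure K => c ⟨i, σ⟩) (Set.finite_range _).bddAbove σ)
    (gap_nonneg hF.poly σ)

end gen

end

/-- if the difference of the second moments is smaller than one half, the slopes are the Hodge slopes -/
theorem close_half {p : ℕ} {N : Multiset ℝ} {H : Multiset ℕ} {t : ℝ} (h : Close p N H t)
    (ht : t < 1 / 2) : N = H.map fun a => (1 / (p : ℝ)) ^ a := by
  obtain ⟨ν, h1, h2, h3, h4, h5, h6, h7⟩ := h
  rw [h2]
  conv_rhs => rw [← map_hs H]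
  rw [Multiset.map_map]
  apply Multiset.map_congr rfl
  intro i hi
  have h8 := gap_half _ (hs H) ν h1 h3 h4 h5 (lt_of_le_of_lt h7 ht) i (Multiset.mem_range.1 hi)
  simp only [Function.comp]
  rw [h8, Real.rpow_natCast]

/-- the absolute value of an integer in `ℚ̄_p` is an integral power of `p` -/
theorem norm_int {p : ℕ} [Fact p.Prime] (m : ℤ) (hm : m ≠ 0) :
    ∃ z : ℤ, ‖((m : ℤ) : PadicAlgCl p)‖ = (p : ℝ) ^ z := by
  have h : ((m : ℤ) : PadicAlgCl p) = algebraMap ℚ_[p] (PadicAlgCl p) (m : ℚ_[p]) := by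
    rw [map_intCast]
  have h0 : (m : ℚ_[p]) ≠ 0 := by exact_mod_cast hm
  refine ⟨-(Padic.valuation (m : ℚ_[p])), ?_⟩
  rw [h, norm_algebraMap']
  exact Padic.norm_eq_zpow_neg_valuation h0

theorem logb_zpow' {p : ℕ} [Fact p.Prime] (z : ℤ) : Real.logb p ((p : ℝ) ^ z) = z := by
  have h1 := p_one (p := p)
  rw [← Real.rpow_intCast, Real.logb_rpow (by linarith) (by linarith)]

/-- the vertices of the Newton polygon of an integral polynomial have integral coordinates -/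
theorem vertex_int {p : ℕ} [Fact p.Prime] (F : Polynomial ℤ)
    (hpos : ∀ y ∈ (F.map (Int.castRingHom (PadicAlgCl p))).roots.map fun y => ‖y‖, 0 < y) (k : ℕ)
    (hk0 : 0 < k)
    (hk : k < Multiset.card ((F.map (Int.castRingHom (PadicAlgCl p))).roots.map fun y => ‖y‖))
    (hb : ns p ((F.map (Int.castRingHom (PadicAlgCl p))).roots.map fun y => ‖y‖) (k - 1) <
      ns p ((F.map (Int.castRingHom (PadicAlgCl p))).roots.map fun y => ‖y‖) k) :
    ∃ m : ℤ, ∑ i ∈ range k,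
      ns p ((F.map (Int.castRingHom (PadicAlgCl p))).roots.map fun y => ‖y‖) i = m := by
  set f := F.map (Int.castRingHom (PadicAlgCl p)) with hf
  have hf0 : f ≠ 0 := by
    intro h0
    rw [h0] at hk
    simp at hk
  have hlead : f.leadingCoeff ≠ 0 := leadingCoeff_ne_zero.2 hf0
  set g := f * C (f.leadingCoeff⁻¹) with hg
  have hgm : g.Monic := monic_mul_leadingCoeff_inv hf0
  have hgr : g.roots = f.roots := by
    rw [hg, mul_comm, roots_C_mul _ (inv_ne_zero hlead)]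
  have hgs : g.Splits := IsAlgClosed.splits _
  have hgc : ∀ j, g.coeff j = f.coeff j * f.leadingCoeff⁻¹ := fun j => by rw [hg, coeff_mul_C]
  have hg0 : g.coeff 0 ≠ 0 := by
    intro h0
    have h1 : (0 : PadicAlgCl p) ∈ g.roots := by
      rw [mem_roots hgm.ne_zero, IsRoot, ← coeff_zero_eq_eval_zero, h0]
    rw [hgr] at h1
    have h2 := hpos ‖(0 : PadicAlgCl p)‖ (Multiset.mem_map_of_mem _ h1)
    rw [norm_zero] at h2
    exact lt_irrefl _ h2
  have hcard : Multiset.card (f.roots.map fun y => ‖y‖) = g.natDegree := by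
    rw [Multiset.card_map, ← hgr]
    exact splits_iff_card_roots.mp hgs
  rw [hcard] at hk
  have hrn : rn g = (f.roots.map fun y => ‖y‖).sort (· ≥ ·) := by
    unfold rn
    rw [hgr]
  have hb' : sl p (rn g) (k - 1) < sl p (rn g) k := by
    rw [hrn]
    exact hb
  have h1 := coeff_break g hgm rfl hgs hg0 k hk0 hk (sl_lt (rn_pos g hg0) hb')
  have h2 : ∑ i ∈ range k, sl p (rn g) i = - Real.logb p (pk (rn g) k) :=
    sl_sum (rn_pos g hg0) k (by rw [rn_length g hgs]; exact hk.le)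
  have h3 : ∑ i ∈ range k, ns p (f.roots.map fun y => ‖y‖) i = ∑ i ∈ range k, sl p (rn g) i := by
    rw [hrn]
    rfl
  have hne : ‖g.coeff (g.natDegree - k)‖ ≠ 0 := by
    rw [h1]
    exact (pk_pos _ (rn_pos g hg0) k).ne'
  rw [h3, h2, ← h1, hgc, norm_mul, norm_inv]
  have e1 : f.coeff (g.natDegree - k) = ((F.coeff (g.natDegree - k) : ℤ) : PadicAlgCl p) := by
    rw [hf, coeff_map]
    rfl
  have hinj : Function.Injective (Int.castRingHom (PadicAlgCl p)) := RingHom.injective_int _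
  have e2 : f.leadingCoeff = ((F.leadingCoeff : ℤ) : PadicAlgCl p) := by
    rw [hf, leadingCoeff_map_of_injective hinj]
    rfl
  have h4 : F.coeff (g.natDegree - k) ≠ 0 := by
    intro h0
    apply hne
    rw [hgc, e1, h0, Int.cast_zero, zero_mul, norm_zero]
  have h5 : F.leadingCoeff ≠ 0 := by
    intro h0
    apply hlead
    rw [e2, h0, Int.cast_zero]
  obtain ⟨z₁, hz1⟩ := norm_int (p := p) _ h4
  obtain ⟨z₂, hz2⟩ := norm_int (p := p) _ h5
  have hp0 : (p : ℝ) ≠ 0 := by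
    have := p_one (p := p)
    linarith
  refine ⟨-(z₁ - z₂), ?_⟩
  rw [e1, e2, hz1, hz2, ← zpow_neg, ← zpow_add₀ hp0, logb_zpow']
  push_cast
  ring

/-- the Newton polygon of the integral polynomial `F` at `p` -/
def CloseSlopes (p : ℕ) (F : Polynomial ℤ) (H : Multiset ℕ) (t : ℝ) : Prop :=
  ∃ _ : Fact p.Prime, Close p ((F.map (Int.castRingHom (PadicAlgCl p))).roots.map fun y => ‖y‖) H t

theorem closeTau_of {ℓ p : ℕ} [Fact ℓ.Prime] [hp : Fact p.Prime] {r : ℕ} (M : Matrix (Fin r) (Fin r) ℚ_[ℓ])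
    (τ : algebraicClosure ℚ (PadicAlgCl ℓ) →+* PadicAlgCl p) (H : Multiset ℕ) (t : ℝ) (F : Polynomial ℤ)
    (hM : M.charpoly = F.map (Int.castRingHom ℚ_[ℓ])) (hF : CloseSlopes p F H t) : CloseTau M τ H t := by
  obtain ⟨hp', h⟩ := hF
  haveI : IsAlgClosed (algebraicClosure ℚ (PadicAlgCl ℓ)) :=
    (algebraicClosure.isAlgClosure ℚ (PadicAlgCl ℓ)).isAlgClosed
  refine ⟨(F.map (Int.castRingHom (algebraicClosure ℚ (PadicAlgCl ℓ)))).roots, ?_, ?_⟩
  · rw [← Splits.roots_map (IsAlgClosed.splits _), Polynomial.map_map, hM, Polynomial.map_map]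
    congr 2
  · have : (F.map (Int.castRingHom (PadicAlgCl p))).roots =
        ((F.map (Int.castRingHom (algebraicClosure ℚ (PadicAlgCl ℓ)))).roots).map τ := by
      rw [← Splits.roots_map (IsAlgClosed.splits _), Polynomial.map_map]
      congr 2
      exact RingHom.ext_int _ _
    rw [this, Multiset.map_map] at h
    exact h

section down

variable {K₀ K : Type} [Field K₀] [NumberField K₀] [Field K] [NumberField K] [Algebra K₀ K]
    {ℓ : ℕ} [Fact ℓ.Prime] {ι : Type} [Fintype ι] (A : ι → MotSystem K ℓ)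
    (χ : GK K →* (PadicAlgCl ℓ)ˣ) (S : Finset ℕ) (hA : ∀ i, (A i).IsMotive χ S)

include hA in
/-- **the bound at a good place** -/
theorem close_good {T : Finset ℕ} {F : HeightOneSpectrum (𝓞 K₀) → ℤ[X]} {H : Multiset ℕ}
    {c : Piece A → ℝ} (hF : IsGen A T F H c) {v : HeightOneSpectrum (𝓞 K)} (hv : GoodPlace A S v)
    (hT : Ideal.absNorm v.asIdeal ∉ T) {γ : GK K} (hγ : IsFrob v γ) (v₀ : HeightOneSpectrum (𝓞 K₀))
    (h0 : v.asIdeal.comap (algebraMap (𝓞 K₀) (𝓞 K)) = v₀.asIdeal) {t : ι → ℝ}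
    (ht : ∀ i, defect (A i) γ ≤ t i) :
    CloseSlopes (Ideal.absNorm v₀.asIdeal) (F v₀) H (bnd c t) := by
  obtain ⟨U, hU, hM, hH, hE⟩ := hF
  obtain ⟨Q, hQm, hQv, hγQ⟩ := hγ
  rw [under_norm v hv.1.1 v₀ h0]
  obtain ⟨p, hpe⟩ : ∃ p, Ideal.absNorm v.asIdeal = p := ⟨_, rfl⟩
  have hpp : p.Prime := hpe ▸ hv.1.1
  haveI : Fact p.Prime := ⟨hpp⟩
  have hpQ := MultSystem.norm_mem hv.1.1 hQv
  rw [hpe] at hpQ
  obtain ⟨τ, hτ⟩ := exists_tau (p := p) Q hQm hpQ
  have hdT : IsDeg1 T v := ⟨hv.1.1, hT⟩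
  obtain ⟨h1, h2⟩ := gen_bound hA hv.1 hdT ⟨hQm, hQv⟩ hpe hτ hU
  have h3 := h2.trans (sum_le_bnd hA hv ⟨hQm, hQv⟩ hpe hτ hγQ hU.nonneg)
  have h4 := h3.trans (bnd_mono hU.nonneg ht)
  rw [hpe]
  have e : norms τ v U = ((F v₀).map (Int.castRingHom (PadicAlgCl p))).roots.map fun y => ‖y‖ := by
    unfold norms
    rw [hE v₀ v h0 hdT]
    have e : (F v₀).map (Int.castRingHom (PadicAlgCl p)) =
        ((F v₀).map (Int.castRingHom (AlgebraicClosure K))).map τ := by
      rw [Polynomial.map_map]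
      congr 1
      exact RingHom.ext_int _ _
    rw [e, Splits.roots_map (IsAlgClosed.splits _), Multiset.map_map]
    rfl
  refine ⟨inferInstance, ?_⟩
  rw [← e]
  have hcard : Multiset.card (norms τ v U) = Multiset.card H := by
    rw [card_norms, h1.card, hH]
  have h5 := moment_mazur (norms_pos h1.ne) (by rw [card_norms, h1.card])
    (mazur_gauss hpe ⟨hQm, hQv⟩ hτ hdT hM).2 h1.sum
  have h6 : s2 (ho U.slopes) - s2 (nu p (norms τ v U)) =
      ∑ i ∈ range (Multiset.card H), (hs H i : ℝ) ^ 2 -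
        ∑ i ∈ range (Multiset.card H), ns p (norms τ v U) i ^ 2 := by
    rw [s2_ho, s2_nu, hcard, hH]
  have h7 := above (norms_pos h1.ne) (by rw [card_norms, h1.card])
    (mazur_gauss hpe ⟨hQm, hQv⟩ hτ hdT hM).2
  rw [hH] at h7
  refine ⟨ns p (norms τ v U), ?_, ?_, h7, ?_, ?_, ?_, ?_⟩
  · intro i hi
    exact ns_mono (norms_pos h1.ne) (by rw [hcard]; exact hi)
  · rw [← hcard]
    exact (map_rpow_ns (norms_pos h1.ne)).symm
  · have h8 := h1.sum
    rw [sum_nu, sum_ho, hcard, hH] at h8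
    exact h8
  · intro k hk0 hk hb
    rw [← hcard, e] at hk
    rw [e] at hb ⊢
    exact vertex_int (p := p) (F v₀) (by rw [← e]; exact norms_pos h1.ne) k hk0 hk hb
  · rw [← h6]
    rw [hH] at h5 ⊢
    exact h5
  · rw [← h6]
    exact h4

theorem share_pos {t : ι → ℝ} (h : ∃ γ : GK K, ∀ i, defect (A i) γ ≤ t i) : 0 < share A t := by
  haveI : Finite (GK K ⧸ MotSystem.fixU A) :=
    Subgroup.quotient_finite_of_isOpen _ (MotSystem.fixU_open A)
  apply div_pos
  · have : 0 < ((QuotientGroup.mk : GK K → GK K ⧸ MotSystem.fixU A) ''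
        {γ | ∀ i, defect (A i) γ ≤ t i}).ncard := by
      rw [Set.ncard_pos (Set.toFinite _)]
      obtain ⟨γ, hγ⟩ := h
      exact ⟨_, γ, hγ, rfl⟩
    exact_mod_cast this
  · exact_mod_cast Nat.card_pos

include hA in
theorem share_dens (t : ι → ℝ) : Tendsto (dens fun v : HeightOneSpectrum (𝓞 K) =>
    ∃ γ : GK K, IsFrob v γ ∧ ∀ i, defect (A i) γ ≤ t i) atTop (𝓝 (share A t)) := by
  haveI := MotSystem.fixU_normal A
  haveI : Finite (GK K ⧸ MotSystem.fixU A) :=
    Subgroup.quotient_finite_of_isOpen _ (MotSystem.fixU_open A)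
  have h := chebK K (MotSystem.fixU A) (MotSystem.fixU_open A) {γ | ∀ i, defect (A i) γ ≤ t i}
    (fun σ hσ τ i => (defect_conj (fun γ σ => ((hA i).isHodge σ).2.2.2.2 γ) σ τ).trans (hσ i))
    (fun σ hσ u hu i => (defect_fix A i hu).trans (hσ i))
  have e : (fun v : HeightOneSpectrum (𝓞 K) => ∃ σ ∈ {γ : GK K | ∀ i, defect (A i) γ ≤ t i},
      IsFrob v σ) = fun v => ∃ γ : GK K, IsFrob v γ ∧ ∀ i, defect (A i) γ ≤ t i := by
    funext v
    apply propext
    constructor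
    · rintro ⟨σ, h1, h2⟩
      exact ⟨σ, h2, h1⟩
    · rintro ⟨σ, h1, h2⟩
      exact ⟨σ, h2, h1⟩
  rw [e] at h
  exact h

/-- the place `v` is good and has a Frobenius element with small defect numbers -/
def GoodAt (t : ι → ℝ) (v : HeightOneSpectrum (𝓞 K)) : Prop :=
  GoodPlace A S v ∧ ∃ γ : GK K, IsFrob v γ ∧ ∀ i, defect (A i) γ ≤ t i

include hA in
theorem dens_goodAt (t : ι → ℝ) (ε : ℝ) (hε : 0 < ε) :
    ∀ᶠ N : ℕ in atTop, share A t - ε ≤ dens (GoodAt A S t) N := by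
  have hlim := share_dens A χ S hA t
  have h1 := dens_good A χ S hA
  have e0 := hlim.eventually (lt_mem_nhds (show share A t - ε / 2 < share A t by linarith))
  have e1 := h1.eventually (gt_mem_nhds (show (0:ℝ) < ε / 2 by positivity))
  filter_upwards [e0, e1] with N h0 h1
  have hle : dens (fun v : HeightOneSpectrum (𝓞 K) => ∃ γ : GK K, IsFrob v γ ∧
      ∀ i, defect (A i) γ ≤ t i) N ≤
      dens (GoodAt A S t) N + dens (fun v => ¬ GoodPlace A S v) N := by
    refine le_trans (dens_mono ?_ N) (dens_or _ _ N)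
    intro v hv
    by_cases hg : GoodPlace A S v
    · exact Or.inl ⟨hg, hv⟩
    · exact Or.inr hg
  linarith

include hA in
/-- the lower density of the places of `K₀` below such places -/
theorem lower_goodAt (t : ι → ℝ) : share A t / (Module.finrank K₀ K : ℝ) ≤
    lowerDensity fun v₀ : HeightOneSpectrum (𝓞 K₀) => ∃ v : HeightOneSpectrum (𝓞 K),
      v.asIdeal.comap (algebraMap (𝓞 K₀) (𝓞 K)) = v₀.asIdeal ∧ GoodAt A S t v := by
  haveI : FiniteDimensional K₀ K := Module.Finite.of_restrictScalars_finite ℚ K₀ K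
  have hd : (0 : ℝ) < (Module.finrank K₀ K : ℝ) := by exact_mod_cast Module.finrank_pos
  apply lowerDensity_ge
  intro ε hε
  filter_upwards [dens_goodAt A χ S hA t (ε * (Module.finrank K₀ K : ℝ)) (by positivity)] with N hN
  have h1 := dens_under' (K₀ := K₀) (GoodAt A S t)
    (fun v₀ : HeightOneSpectrum (𝓞 K₀) => ∃ v : HeightOneSpectrum (𝓞 K),
      v.asIdeal.comap (algebraMap (𝓞 K₀) (𝓞 K)) = v₀.asIdeal ∧ GoodAt A S t v)
    (fun v hv => hv.1.1.1) (fun v v₀ hv h0 => ⟨v, h0, hv⟩) N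
  rw [div_sub' hd.ne', div_le_iff₀ hd]
  linarith [mul_comm (Module.finrank K₀ K : ℝ) (dens (fun v₀ : HeightOneSpectrum (𝓞 K₀) =>
      ∃ v : HeightOneSpectrum (𝓞 K),
      v.asIdeal.comap (algebraMap (𝓞 K₀) (𝓞 K)) = v₀.asIdeal ∧ GoodAt A S t v) N),
    mul_comm (Module.finrank K₀ K : ℝ) ε]

end down

end Pool.Agent.K3h30.VD
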