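import Pool.Agent.K3h30.OC.Defs
import Pool.Agent.W528.Ord.MotMain

/-!
# Second moments of Newton polygons: definitions
-/

set_option autoImplicit false

namespace Pool.Agent.K3h30.VD

open NumberField IsDedekindDomain Polynomial Finset
open Pool.Agent.W401.Cheb Pool.Agent.W528.Ord Pool.Agent.K3h30.OC
open Pool.Agent.R915.Ord (Piece)
open Pool.Agent.W528.Ord.MultSystem (mv IsDeg1)

/-- **the index of an exterior power** of degree `k` of an object of rank `n` -/
def be (n : ℕ) : ℕ → ℕ
  | 0 => 0
  | k + 1 => (n - 2).choose k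

/-- the slope of the `i`-th absolute value in the list `L` -/
noncomputable def sl (p : ℕ) (L : List ℝ) (i : ℕ) : ℝ := - Real.logb p (L.getD i 1)

/-- the `i`-th member of `H`, in increasing order -/
noncomputable def hs (H : Multiset ℕ) (i : ℕ) : ℕ := (H.sort (· ≤ ·)).getD i 0

/-- the `i`-th slope `- log_p x` of the absolute values `x` in `N`, in increasing order -/
noncomputable def ns (p : ℕ) (N : Multiset ℝ) (i : ℕ) : ℝ := sl p (N.sort (· ≥ ·)) i

/-- The sum of the `k` smallest slopes: the Newton polygon with the slopes `ν 0 ≤ ν 1 ≤ ...` at `k`. -/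
noncomputable def np (ν : ℕ → ℝ) (k : ℕ) : ℝ := ∑ i ∈ range k, ν i

/-- the difference of the second moments of the Hodge slopes and of the Newton slopes -/
noncomputable def gap (n : ℕ) (h : List ℕ) (ν : ℕ → ℝ) : ℝ :=
  ∑ i ∈ range n, ((h.getD i 0 : ℕ) : ℝ) ^ 2 - ∑ i ∈ range n, ν i ^ 2

section

variable {K : Type} [Field K] [NumberField K] {ℓ : ℕ} [Fact ℓ.Prime]

/-- the slopes, in increasing order, of the Newton polygon of the `σ`-part of `A` at the place `v`, for
the embedding `τ` -/
noncomputable def newt (A : MotSystem K ℓ) (v : HeightOneSpectrum (𝓞 K)) {p : ℕ} [Fact p.Prime]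
    (τ : AlgebraicClosure K →+* PadicAlgCl p) (σ : A.E →+* AlgebraicClosure K) (i : ℕ) : ℝ :=
  ns p ((A.poly v (τ.comp σ)).roots.map fun y => ‖y‖) i

/-- `ν σ` are the slopes, in increasing order, of a polygon which lies on or above the Hodge polygon of
the `σ`-part, with the same end point, and the vertices of which have integral coordinates -/
structure IsPolygon (A : MotSystem K ℓ) (ν : (A.E →+* AlgebraicClosure K) → ℕ → ℝ) : Prop where
  mono : ∀ σ i, i + 1 < A.n → ν σ i ≤ ν σ (i + 1)
  above : ∀ σ, ∀ k ≤ A.n, (A.hp σ k : ℝ) ≤ np (ν σ) k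
  ends : ∀ σ, np (ν σ) A.n = A.hp σ A.n
  vertex : ∀ σ k, 0 < k → k < A.n → ν σ (k - 1) < ν σ k → ∃ m : ℕ, np (ν σ) k = m

/-- if some Hodge polygon has a vertex, then for `0 < k < n` the average over `σ` of the (rounded up)
values at `k` is *strictly* smaller than the value `w k / 2` of the symmetric line -/
def IsSmall (A : MotSystem K ℓ) (ν : (A.E →+* AlgebraicClosure K) → ℕ → ℝ) : Prop :=
  (∃ σ k, A.Vertex σ k) → ∀ k, 0 < k → k < A.n →
    2 * ∑ σ : A.E →+* AlgebraicClosure K, ⌈np (ν σ) k⌉₊ < A.w * k * Module.finrank ℚ A.E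

/-- The families of polygons, one for each embedding `σ`, which have the properties of the Newton
polygons of the `σ`-parts of `A` at almost all places with Frobenius element `γ`: the polygons for `σ`
and `γ σ` are the same; duality (the polygon of the complex conjugate embedding); and `IsSmall`. -/
structure IsFamily (A : MotSystem K ℓ) (γ : GK K) (ν : (A.E →+* AlgebraicClosure K) → ℕ → ℝ) : Prop where
  poly : IsPolygon A ν
  stable : ∀ σ, ∀ i < A.n, ν (mv γ σ) i = ν σ i
  dual : ∀ σ, ∀ i < A.n, ν (σ.comp (A.conj : A.E →+* A.E)) i + ν σ (A.n - 1 - i) = A.w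
  small : IsSmall A ν

/-- **the defect number**: the largest possible difference of the second moments of the Hodge slopes
and of the Newton slopes of `A`, for the families of polygons above -/
noncomputable def defect (A : MotSystem K ℓ) (γ : GK K) : ℝ :=
  sSup {b | ∃ ν, IsFamily A γ ν ∧ ∑ σ : A.E →+* AlgebraicClosure K, gap A.n (A.h σ) (ν σ) = b}

/-- the total variance of the Hodge slopes, with respect to the centre `w / 2` -/
noncomputable def hodgeVar (A : MotSystem K ℓ) : ℝ :=
  ∑ σ : A.E →+* AlgebraicClosure K, ∑ i ∈ range A.n, ((((A.h σ).getD i 0 : ℕ) : ℝ) - A.w / 2) ^ 2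

end

/-- the exterior power of degree `k` -/
noncomputable def extObj {K : Type} [Field K] [NumberField K] (U : Obj K) (k : ℕ) : Obj K :=
  ⟨fun v => (Multiset.powersetCard k (U.eig v)).map Multiset.prod,
    (Multiset.powersetCard k U.slopes).map Multiset.sum⟩

/-- **Motives generated by motives with multiplications, with coefficients.** `Gen A T U c`: the motive
`U` can be built from the pieces (the `σ`-parts) of the motives `A i` by direct sums, tensor products,
Tate twists, duals, exterior powers, direct summands and tensor factors; the function `c` on the pieces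
is additive for direct sums, `c (U ⊗ V) = rank V * c U + rank U * c V`, it does not change for twists and
duals, is multiplied by `(rank U - 2).choose (k - 1)` for the exterior power of degree `k ≥ 1`, and is
divided by the rank of the complementary factor for tensor factors. (Mazur's inequality is assumed for
direct summands, their complements and for tensor factors.) -/
inductive Gen {K : Type} [Field K] [NumberField K] {ℓ : ℕ} [Fact ℓ.Prime] {ι : Type}
    (A : ι → MotSystem K ℓ) (T : Finset ℕ) : Obj K → (Piece A → ℝ) → Prop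
  | piece (x : Piece A) (c : Piece A → ℝ) (h1 : c x = 1) (h0 : ∀ y, y ≠ x → c y = 0) :
      Gen A T (Obj.piece (A x.1) x.2) c
  | unit : Gen A T Obj.unit (fun _ => 0)
  | iso (U V : Obj K) (c : Piece A → ℝ) (h : U.Iso T V) (hV : Gen A T V c) : Gen A T U c
  | sum (U V : Obj K) (c c' : Piece A → ℝ) (hU : Gen A T U c) (hV : Gen A T V c') :
      Gen A T (U.sum V) (fun x => c x + c' x)
  | tensor (U V : Obj K) (c c' : Piece A → ℝ) (hU : Gen A T U c) (hV : Gen A T V c') :
      Gen A T (U.tensor V)
        (fun x => Multiset.card V.slopes * c x + Multiset.card U.slopes * c' x)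
  | twist (U : Obj K) (c : Piece A → ℝ) (j : ℕ) (hU : Gen A T U c) : Gen A T (U.twist j) c
  | untwist (U : Obj K) (c : Piece A → ℝ) (j : ℕ) (hU : Gen A T (U.twist j) c) : Gen A T U c
  | dual (U : Obj K) (c : Piece A → ℝ) (w : ℕ) (hw : ∀ a ∈ U.slopes, a ≤ w) (hU : Gen A T U c) :
      Gen A T (U.dual w) c
  | ext (U : Obj K) (c : Piece A → ℝ) (k : ℕ) (hU : Gen A T U c) :
      Gen A T (extObj U k) (fun x => be (Multiset.card U.slopes) k * c x)
  | summand (U U' : Obj K) (c : Piece A → ℝ) (hU : U.Mazur T) (hU' : U'.Mazur T)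
      (h : Gen A T (U.sum U') c) : Gen A T U c
  | factor (U U' : Obj K) (c : Piece A → ℝ) (hU : U.Mazur T) (hU' : U'.Mazur T)
      (h0 : U'.slopes ≠ 0) (h : Gen A T (U.tensor U') c) :
      Gen A T U (fun x => c x / Multiset.card U'.slopes)

/-- The compatible system with the Frobenius polynomials `F` (at the places of `K₀`) and the Hodge
slopes `H` satisfies Mazur's inequality over the finite extension `K` of `K₀` and becomes there a member
of the class generated by the `A i`, with the coefficients `c`. -/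
def IsGen {K₀ K : Type} [Field K₀] [NumberField K₀] [Field K] [NumberField K] [Algebra K₀ K]
    {ℓ : ℕ} [Fact ℓ.Prime] {ι : Type} (A : ι → MotSystem K ℓ) (T : Finset ℕ)
    (F : HeightOneSpectrum (𝓞 K₀) → ℤ[X]) (H : Multiset ℕ) (c : Piece A → ℝ) : Prop :=
  ∃ U : Obj K, Gen A T U c ∧ U.Mazur T ∧ U.slopes = H ∧
    ∀ (v₀ : HeightOneSpectrum (𝓞 K₀)) (v : HeightOneSpectrum (𝓞 K)),
      v.asIdeal.comap (algebraMap (𝓞 K₀) (𝓞 K)) = v₀.asIdeal → IsDeg1 T v →
      U.eig v = ((F v₀).map (Int.castRingHom (AlgebraicClosure K))).roots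

/-- the bound: the sum over `i` of the largest coefficient of the pieces of `A i` times `t i` -/
noncomputable def bnd {K : Type} [Field K] [NumberField K] {ℓ : ℕ} [Fact ℓ.Prime] {ι : Type}
    [Fintype ι] {A : ι → MotSystem K ℓ} (c : Piece A → ℝ) (t : ι → ℝ) : ℝ :=
  ∑ i, (⨆ σ : (A i).E →+* AlgebraicClosure K, c ⟨i, σ⟩) * t i

/-- The proportion, in the finite group through which the Galois group of `K` acts on the embeddings of
the fields of multiplications, of the elements `γ` with `defect (A i) γ ≤ t i` for all `i`. -/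
noncomputable def share {K : Type} [Field K] [NumberField K] {ℓ : ℕ} [Fact ℓ.Prime] {ι : Type}
    [Fintype ι] (A : ι → MotSystem K ℓ) (t : ι → ℝ) : ℝ :=
  (((QuotientGroup.mk : GK K → GK K ⧸ MotSystem.fixU A) '' {γ | ∀ i, defect (A i) γ ≤ t i}).ncard : ℝ) /
    (Nat.card (GK K ⧸ MotSystem.fixU A) : ℝ)

/-- The members of `N` are the `p ^ (-a)`, where `a` runs through `card H` real slopes
`ν 0 ≤ ν 1 ≤ ...`; the polygon with the slopes `ν` lies on or above the polygon with the slopes
`h 0 ≤ h 1 ≤ ...`, the members of `H`, has the same end point, and its vertices have integral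
coordinates; and `Σ (h i - ν i) ^ 2 ≤ Σ (h i) ^ 2 - Σ (ν i) ^ 2 ≤ t`. -/
def Close (p : ℕ) (N : Multiset ℝ) (H : Multiset ℕ) (t : ℝ) : Prop :=
  ∃ ν : ℕ → ℝ, (∀ i, i + 1 < Multiset.card H → ν i ≤ ν (i + 1)) ∧
    N = (Multiset.range (Multiset.card H)).map (fun i => (1 / (p : ℝ)) ^ (ν i)) ∧
    (∀ k ≤ Multiset.card H, ∑ i ∈ range k, (hs H i : ℝ) ≤ ∑ i ∈ range k, ν i) ∧
    ∑ i ∈ range (Multiset.card H), ν i = ∑ i ∈ range (Multiset.card H), (hs H i : ℝ) ∧
    (∀ k, 0 < k → k < Multiset.card H → ν (k - 1) < ν k → ∃ m : ℤ, ∑ i ∈ range k, ν i = m) ∧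
    ∑ i ∈ range (Multiset.card H), ((hs H i : ℝ) - ν i) ^ 2 ≤
      ∑ i ∈ range (Multiset.card H), (hs H i : ℝ) ^ 2 - ∑ i ∈ range (Multiset.card H), ν i ^ 2 ∧
    ∑ i ∈ range (Multiset.card H), (hs H i : ℝ) ^ 2 - ∑ i ∈ range (Multiset.card H), ν i ^ 2 ≤ t

/-- The eigenvalues of the `ℓ`-adic matrix `M` are algebraic numbers, and the slopes `ν` of their Newton
polygon, for the embedding `τ` of the field of algebraic numbers in `ℚ̄_ℓ` into `ℚ̄_p`, satisfy
`Σ (h i - ν i) ^ 2 ≤ Σ (h i) ^ 2 - Σ (ν i) ^ 2 ≤ t`, for the members `h i` of `H` (both in increasing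
order). -/
def CloseTau {ℓ p : ℕ} [Fact ℓ.Prime] [Fact p.Prime] {r : ℕ} (M : Matrix (Fin r) (Fin r) ℚ_[ℓ])
    (τ : algebraicClosure ℚ (PadicAlgCl ℓ) →+* PadicAlgCl p) (H : Multiset ℕ) (t : ℝ) : Prop :=
  ∃ e : Multiset (algebraicClosure ℚ (PadicAlgCl ℓ)),
    e.map (algebraMap _ (PadicAlgCl ℓ)) = (M.charpoly.map (algebraMap ℚ_[ℓ] (PadicAlgCl ℓ))).roots ∧
    Close p (e.map fun y => ‖τ y‖) H t

end Pool.Agent.K3h30.VD
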