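import Pool.Agent.K3h30.VD.Family
import Pool.Agent.K3h30.VD.Gap

/-!
# Explicit bounds for the defect numbers
-/

set_option autoImplicit false
set_option linter.all false

namespace Pool.Agent.K3h30.VD

open NumberField IsDedekindDomain Polynomial Filter Topology Finset
open Pool.Agent.W401.Cheb Pool.Agent.W528.Ord Pool.Agent.K3h30.NH
open Pool.Agent.W528.Ord.MultSystem (mv IsDeg1 IsOver)

section

variable {K : Type} [Field K] [NumberField K] {ℓ : ℕ} [Fact ℓ.Prime]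

/-- the total variance of the Newton slopes -/
noncomputable def newtonVar (A : MotSystem K ℓ) (ν : (A.E →+* AlgebraicClosure K) → ℕ → ℝ) : ℝ :=
  ∑ σ : A.E →+* AlgebraicClosure K, ∑ i ∈ range A.n, (ν σ i - A.w / 2) ^ 2

theorem gap_eq {A : MotSystem K ℓ} {ν : (A.E →+* AlgebraicClosure K) → ℕ → ℝ} (h : IsPolygon A ν) :
    ∑ σ : A.E →+* AlgebraicClosure K, gap A.n (A.h σ) (ν σ) = hodgeVar A - newtonVar A ν := by
  unfold hodgeVar newtonVar
  rw [← sum_sub_distrib]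
  apply sum_congr rfl
  intro σ _
  have h1 := h.ends σ
  rw [hp_sum] at h1
  have e1 : ∑ i ∈ range A.n, ((((A.h σ).getD i 0 : ℕ) : ℝ) - A.w / 2) ^ 2 =
      ∑ i ∈ range A.n, ((((A.h σ).getD i 0 : ℕ) : ℝ)) ^ 2 -
        A.w * ∑ i ∈ range A.n, (((A.h σ).getD i 0 : ℕ) : ℝ) + A.n * (A.w / 2) ^ 2 := by
    rw [mul_sum, ← sum_sub_distrib]
    have : (A.n : ℝ) * (A.w / 2) ^ 2 = ∑ i ∈ range A.n, ((A.w : ℝ) / 2) ^ 2 := by
      rw [sum_const, card_range, nsmul_eq_mul]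
    rw [this, ← sum_add_distrib]
    apply sum_congr rfl
    intro i _
    ring
  have e2 : ∑ i ∈ range A.n, (ν σ i - A.w / 2) ^ 2 =
      ∑ i ∈ range A.n, ν σ i ^ 2 - A.w * ∑ i ∈ range A.n, ν σ i + A.n * (A.w / 2) ^ 2 := by
    rw [mul_sum, ← sum_sub_distrib]
    have : (A.n : ℝ) * (A.w / 2) ^ 2 = ∑ i ∈ range A.n, ((A.w : ℝ) / 2) ^ 2 := by
      rw [sum_const, card_range, nsmul_eq_mul]
    rw [this, ← sum_add_distrib]
    apply sum_congr rfl
    intro i _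
    ring
  rw [e1, e2]
  unfold gap
  unfold np at h1
  rw [h1]
  ring

theorem conj_bij (A : MotSystem K ℓ) :
    Function.Bijective fun σ : A.E →+* AlgebraicClosure K => σ.comp (A.conj : A.E →+* A.E) := by
  refine (Finite.injective_iff_bijective).1 ?_
  intro σ σ' h
  apply RingHom.ext
  intro x
  have h1 := congrArg (fun f : A.E →+* AlgebraicClosure K => f (A.conj.symm x)) h
  simpa using h1

/-- the first and the last `k` slopes -/
theorem newtonVar_ge {A : MotSystem K ℓ} {γ : GK K} {ν : (A.E →+* AlgebraicClosure K) → ℕ → ℝ}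
    (h : IsFamily A γ ν) (k : ℕ) (hk : 2 * k ≤ A.n) :
    2 * ∑ σ : A.E →+* AlgebraicClosure K, ∑ i ∈ range k, (ν σ i - A.w / 2) ^ 2 ≤ newtonVar A ν := by
  have h1 : ∀ σ, ∑ i ∈ range k, (ν σ i - A.w / 2) ^ 2 +
      ∑ i ∈ range k, (ν (σ.comp (A.conj : A.E →+* A.E)) i - A.w / 2) ^ 2 ≤
      ∑ i ∈ range A.n, (ν σ i - A.w / 2) ^ 2 := by
    intro σ
    have e1 : ∑ i ∈ range k, (ν (σ.comp (A.conj : A.E →+* A.E)) i - A.w / 2) ^ 2 =
        ∑ i ∈ Ico (A.n - k) A.n, (ν σ i - A.w / 2) ^ 2 := by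
      rw [Finset.sum_Ico_eq_sum_range, show A.n - (A.n - k) = k by omega,
        ← Finset.sum_range_reflect]
      apply sum_congr rfl
      intro i hi
      have hi' := mem_range.1 hi
      have h2 := h.dual σ (k - 1 - i) (by omega)
      rw [show A.n - 1 - (k - 1 - i) = A.n - k + i by omega] at h2
      have h3 : ν (σ.comp (A.conj : A.E →+* A.E)) (k - 1 - i) = A.w - ν σ (A.n - k + i) := by linarith
      rw [h3]
      ring
    rw [e1]
    have h2 : Disjoint (range k) (Ico (A.n - k) A.n) := by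
      rw [Finset.disjoint_left]
      intro i hi hi'
      have := mem_range.1 hi
      have := (mem_Ico.1 hi').1
      omega
    rw [← sum_union h2]
    apply sum_le_sum_of_subset_of_nonneg
    · intro i hi
      rcases mem_union.1 hi with h3 | h3
      · exact mem_range.2 (by have := mem_range.1 h3; omega)
      · exact mem_range.2 (mem_Ico.1 h3).2
    · intro i _ _
      exact sq_nonneg _
  have h2 := sum_le_sum (s := (Finset.univ : Finset (A.E →+* AlgebraicClosure K))) fun σ _ => h1 σ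
  rw [sum_add_distrib] at h2
  have h3 := (conj_bij A).sum_comp (fun σ => ∑ i ∈ range k, (ν σ i - A.w / 2) ^ 2)
  rw [h3] at h2
  unfold newtonVar
  linarith

theorem card_emb (A : MotSystem K ℓ) :
    ((Finset.univ : Finset (A.E →+* AlgebraicClosure K)).card : ℝ) = Module.finrank ℚ A.E := by
  rw [Finset.card_univ, NumberField.Embeddings.card]

/-- weight even -/
theorem var_even {A : MotSystem K ℓ} {γ : GK K} {ν : (A.E →+* AlgebraicClosure K) → ℕ → ℝ}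
    (h : IsFamily A γ ν) (hex : ∃ σ k, A.Vertex σ k) (hw : Even A.w) : 2 ≤ newtonVar A ν := by
  have hn : 2 ≤ A.n := by
    obtain ⟨σ, k, h1, h2, -⟩ := hex
    omega
  have h1 := h.small hex 1 one_pos (by omega)
  obtain ⟨m, hm⟩ := hw
  have h2 : ∑ σ : A.E →+* AlgebraicClosure K, ⌈np (ν σ) 1⌉₊ + 1 ≤ m * Module.finrank ℚ A.E := by
    rw [hm] at h1
    have : (m + m) * 1 * Module.finrank ℚ A.E = 2 * (m * Module.finrank ℚ A.E) := by ring
    omega
  have h3 : ((∑ σ : A.E →+* AlgebraicClosure K, (⌈np (ν σ) 1⌉₊ : ℝ)) + 1) ≤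
      m * Module.finrank ℚ A.E := by exact_mod_cast h2
  have h4 : ∀ σ : A.E →+* AlgebraicClosure K, (m : ℝ) - ⌈np (ν σ) 1⌉₊ ≤ (ν σ 0 - A.w / 2) ^ 2 := by
    intro σ
    have e1 : np (ν σ) 1 = ν σ 0 := by simp [np]
    have e2 : (A.w : ℝ) / 2 = m := by
      rw [hm]
      push_cast
      ring
    rw [e1, e2]
    have h5 := Nat.le_ceil (ν σ 0)
    rcases Nat.lt_or_ge ⌈ν σ 0⌉₊ m with h6 | h6
    · have h7 : ((⌈ν σ 0⌉₊ : ℕ) : ℝ) + 1 ≤ m := by exact_mod_cast h6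
      nlinarith
    · have h7 : (m : ℝ) ≤ ((⌈ν σ 0⌉₊ : ℕ) : ℝ) := by exact_mod_cast h6
      nlinarith [sq_nonneg (ν σ 0 - m)]
  have h5 := newtonVar_ge h 1 (by omega)
  have h6 : ∑ σ : A.E →+* AlgebraicClosure K, ((m : ℝ) - ⌈np (ν σ) 1⌉₊) ≤
      ∑ σ : A.E →+* AlgebraicClosure K, (ν σ 0 - A.w / 2) ^ 2 := sum_le_sum fun σ _ => h4 σ
  rw [sum_sub_distrib, sum_const, nsmul_eq_mul, card_emb] at h6
  simp only [sum_range_one] at h5
  linarith [mul_comm (m : ℝ) (Module.finrank ℚ A.E : ℝ)]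

/-- weight odd -/
theorem var_odd {A : MotSystem K ℓ} {γ : GK K} {ν : (A.E →+* AlgebraicClosure K) → ℕ → ℝ}
    (h : IsFamily A γ ν) (hex : ∃ σ k, A.Vertex σ k) (hw : Odd A.w) :
    ((Module.finrank ℚ A.E : ℝ) + 1) / 4 ≤ newtonVar A ν := by
  have hn : 2 ≤ A.n := by
    obtain ⟨σ, k, h1, h2, -⟩ := hex
    omega
  have h1 := h.small hex 1 one_pos (by omega)
  obtain ⟨m, hm⟩ := hw
  have h2 : 2 * ∑ σ : A.E →+* AlgebraicClosure K, ⌈np (ν σ) 1⌉₊ + 1 ≤
      (2 * m + 1) * Module.finrank ℚ A.E := by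
    rw [hm, mul_one] at h1
    exact h1
  have h3 : (2 * (∑ σ : A.E →+* AlgebraicClosure K, (⌈np (ν σ) 1⌉₊ : ℝ)) + 1) ≤
      (2 * m + 1) * Module.finrank ℚ A.E := by exact_mod_cast h2
  have h4 : ∀ σ : A.E →+* AlgebraicClosure K,
      1 / 8 + ((m : ℝ) + 1 / 2 - ⌈np (ν σ) 1⌉₊) / 4 ≤ (ν σ 0 - A.w / 2) ^ 2 := by
    intro σ
    have e1 : np (ν σ) 1 = ν σ 0 := by simp [np]
    have e2 : (A.w : ℝ) / 2 = m + 1 / 2 := by
      rw [hm]
      push_cast
      ring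
    rw [e1, e2]
    have h5 := Nat.le_ceil (ν σ 0)
    rcases Nat.lt_or_ge m ⌈ν σ 0⌉₊ with h6 | h6
    · have h7 : (m : ℝ) + 1 ≤ ((⌈ν σ 0⌉₊ : ℕ) : ℝ) := by exact_mod_cast h6
      nlinarith [sq_nonneg (ν σ 0 - (m + 1 / 2))]
    · have h7 : ((⌈ν σ 0⌉₊ : ℕ) : ℝ) ≤ m := by exact_mod_cast h6
      nlinarith
  have h5 := newtonVar_ge h 1 (by omega)
  have h6 : ∑ σ : A.E →+* AlgebraicClosure K, (1 / 8 + ((m : ℝ) + 1 / 2 - ⌈np (ν σ) 1⌉₊) / 4) ≤
      ∑ σ : A.E →+* AlgebraicClosure K, (ν σ 0 - A.w / 2) ^ 2 := sum_le_sum fun σ _ => h4 σ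
  have e3 : ∀ σ : A.E →+* AlgebraicClosure K, (1 / 8 : ℝ) + ((m : ℝ) + 1 / 2 - ⌈np (ν σ) 1⌉₊) / 4 =
      (1 / 4 + (m : ℝ) / 4) - (1 / 4) * ⌈np (ν σ) 1⌉₊ := by
    intro σ
    ring
  simp only [e3] at h6
  rw [sum_sub_distrib, sum_const, nsmul_eq_mul, card_emb, ← mul_sum] at h6
  simp only [sum_range_one] at h5
  nlinarith

/-- rank at least four -/
theorem var_four {A : MotSystem K ℓ} {γ : GK K} {ν : (A.E →+* AlgebraicClosure K) → ℕ → ℝ}
    (h : IsFamily A γ ν) (hex : ∃ σ k, A.Vertex σ k) (hn : 4 ≤ A.n) : 1 ≤ newtonVar A ν := by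
  have h1 := h.small hex 2 two_pos (by omega)
  have h2 : ∑ σ : A.E →+* AlgebraicClosure K, ⌈np (ν σ) 2⌉₊ + 1 ≤ A.w * Module.finrank ℚ A.E := by
    have : A.w * 2 * Module.finrank ℚ A.E = 2 * (A.w * Module.finrank ℚ A.E) := by ring
    omega
  have h3 : ((∑ σ : A.E →+* AlgebraicClosure K, (⌈np (ν σ) 2⌉₊ : ℝ)) + 1) ≤
      A.w * Module.finrank ℚ A.E := by exact_mod_cast h2
  have h4 : ∀ σ : A.E →+* AlgebraicClosure K,
      ((A.w : ℝ) - ⌈np (ν σ) 2⌉₊) / 2 ≤ ∑ i ∈ range 2, (ν σ i - A.w / 2) ^ 2 := by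
    intro σ
    have e1 : np (ν σ) 2 = ν σ 0 + ν σ 1 := by simp [np, sum_range_succ]
    rw [e1, sum_range_succ, sum_range_one]
    have h5 := Nat.le_ceil (ν σ 0 + ν σ 1)
    have h8 : (A.w - (ν σ 0 + ν σ 1)) ^ 2 / 2 ≤
        (ν σ 0 - A.w / 2) ^ 2 + (ν σ 1 - A.w / 2) ^ 2 := by
      nlinarith [sq_nonneg (ν σ 0 - ν σ 1)]
    refine le_trans ?_ h8
    rcases Nat.lt_or_ge ⌈ν σ 0 + ν σ 1⌉₊ A.w with h6 | h6
    · have h7 : ((⌈ν σ 0 + ν σ 1⌉₊ : ℕ) : ℝ) + 1 ≤ A.w := by exact_mod_cast h6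
      nlinarith
    · have h7 : (A.w : ℝ) ≤ ((⌈ν σ 0 + ν σ 1⌉₊ : ℕ) : ℝ) := by exact_mod_cast h6
      nlinarith [sq_nonneg (A.w - (ν σ 0 + ν σ 1))]
  have h5 := newtonVar_ge h 2 (by omega)
  have h6 := sum_le_sum (s := (Finset.univ : Finset (A.E →+* AlgebraicClosure K))) fun σ _ => h4 σ
  rw [← sum_div, sum_sub_distrib, sum_const, nsmul_eq_mul, card_emb] at h6
  linarith [mul_comm (A.w : ℝ) (Module.finrank ℚ A.E : ℝ)]

/-- the Hodge slopes have at least this variance -/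
theorem hodge_odd {A : MotSystem K ℓ} (hw : Odd A.w) :
    ((Module.finrank ℚ A.E : ℝ)) * (A.n / 4) ≤ hodgeVar A := by
  unfold hodgeVar
  obtain ⟨m, hm⟩ := hw
  have h1 : ∀ σ : A.E →+* AlgebraicClosure K, (A.n : ℝ) / 4 ≤
      ∑ i ∈ range A.n, ((((A.h σ).getD i 0 : ℕ) : ℝ) - A.w / 2) ^ 2 := by
    intro σ
    have e : (A.n : ℝ) / 4 = ∑ i ∈ range A.n, (1 / 4 : ℝ) := by
      rw [sum_const, card_range, nsmul_eq_mul]
      ring
    rw [e]
    apply sum_le_sum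
    intro i _
    have e2 : (A.w : ℝ) / 2 = m + 1 / 2 := by
      rw [hm]
      push_cast
      ring
    rw [e2]
    rcases Nat.lt_or_ge m ((A.h σ).getD i 0) with h6 | h6
    · have h7 : (m : ℝ) + 1 ≤ (((A.h σ).getD i 0 : ℕ) : ℝ) := by exact_mod_cast h6
      nlinarith
    · have h7 : (((A.h σ).getD i 0 : ℕ) : ℝ) ≤ m := by exact_mod_cast h6
      nlinarith
  have h2 := sum_le_sum (s := (Finset.univ : Finset (A.E →+* AlgebraicClosure K))) fun σ _ => h1 σ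
  rw [sum_const, nsmul_eq_mul, card_emb] at h2
  exact h2

theorem hodge_even {A : MotSystem K ℓ} (hH : A.IsHodge) (hex : ∃ σ k, A.Vertex σ k) (hw : Even A.w) :
    2 ≤ hodgeVar A := by
  classical
  obtain ⟨m, hm⟩ := hw
  have e2 : (A.w : ℝ) / 2 = m := by
    rw [hm]
    push_cast
    ring
  -- an embedding and a slope different from `m`
  obtain ⟨σ, i, hi, hne⟩ : ∃ σ i, i < A.n ∧ (A.h σ).getD i 0 ≠ m := by
    obtain ⟨σ, k, h1, h2, h3⟩ := hex
    by_cases h4 : (A.h σ).getD k 0 = m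
    · exact ⟨σ, k - 1, by omega, by omega⟩
    · exact ⟨σ, k, h2, h4⟩
  set σ' := σ.comp (A.conj : A.E →+* A.E) with hσ'
  obtain ⟨h1, h2, h3, h4, h5⟩ := hH σ
  have hdual : (A.h σ').getD (A.n - 1 - i) 0 = A.w - (A.h σ).getD i 0 := by
    rw [hσ', h4, List.getD_reverse _ (by rw [List.length_map, h1]; omega), List.length_map, h1,
      show A.n - 1 - (A.n - 1 - i) = i by omega,
      List.getD_eq_getElem _ _ (by rw [List.length_map, h1]; exact hi), List.getElem_map,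
      List.getD_eq_getElem _ _ (by rw [h1]; exact hi)]
  have hle : (A.h σ).getD i 0 ≤ A.w := by
    rw [List.getD_eq_getElem _ _ (by rw [h1]; exact hi)]
    exact h3 _ (List.getElem_mem _)
  let f : (A.E →+* AlgebraicClosure K) × ℕ → ℝ := fun x =>
    ((((A.h x.1).getD x.2 0 : ℕ) : ℝ) - A.w / 2) ^ 2
  have hsum : hodgeVar A = ∑ x ∈ (Finset.univ : Finset (A.E →+* AlgebraicClosure K)) ×ˢ range A.n, f x := by
    unfold hodgeVar
    rw [Finset.sum_product]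
  have hxy : (σ, i) ≠ (σ', A.n - 1 - i) := by
    intro h
    have h6 : σ = σ' := congrArg Prod.fst h
    have h7 : i = A.n - 1 - i := congrArg Prod.snd h
    rw [← h6, ← h7] at hdual
    omega
  rw [hsum]
  have hge : ∀ a : ℕ, a ≠ m → (1 : ℝ) ≤ ((a : ℝ) - A.w / 2) ^ 2 := by
    intro a ha
    rw [e2]
    rcases Nat.lt_or_gt_of_ne ha with h6 | h6
    · have h7 : (a : ℝ) + 1 ≤ m := by exact_mod_cast h6
      nlinarith
    · have h7 : (m : ℝ) + 1 ≤ a := by exact_mod_cast h6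
      nlinarith
  have h6 : ∑ x ∈ ({(σ, i), (σ', A.n - 1 - i)} : Finset _), f x ≤
      ∑ x ∈ (Finset.univ : Finset (A.E →+* AlgebraicClosure K)) ×ˢ range A.n, f x := by
    apply sum_le_sum_of_subset_of_nonneg
    · intro x hx
      rcases Finset.mem_insert.1 hx with h | h
      · rw [h]
        exact Finset.mem_product.2 ⟨Finset.mem_univ _, mem_range.2 hi⟩
      · rw [Finset.mem_singleton.1 h]
        exact Finset.mem_product.2 ⟨Finset.mem_univ _, mem_range.2 (by omega)⟩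
    · intro x _ _
      exact sq_nonneg _
  rw [Finset.sum_pair hxy] at h6
  have h7 : (1 : ℝ) ≤ f (σ, i) := hge _ hne
  have h8 : (1 : ℝ) ≤ f (σ', A.n - 1 - i) := hge _ (by rw [hdual]; omega)
  linarith

/-- **explicit bounds for the defect number** -/
theorem defect_even {A : MotSystem K ℓ} (hH : A.IsHodge) (γ : GK K) (hex : ∃ σ k, A.Vertex σ k)
    (hw : Even A.w) : defect A γ ≤ hodgeVar A - 2 := by
  apply defect_le (by linarith [hodge_even hH hex hw])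
  intro ν hν
  rw [gap_eq hν.poly]
  linarith [var_even hν hex hw]

theorem rank_pos (A : MotSystem K ℓ) : (1 : ℝ) ≤ Module.finrank ℚ A.E := by
  exact_mod_cast (Module.finrank_pos : 0 < Module.finrank ℚ A.E)

theorem defect_odd {A : MotSystem K ℓ} (γ : GK K) (hex : ∃ σ k, A.Vertex σ k)
    (hw : Odd A.w) : defect A γ ≤ hodgeVar A - ((Module.finrank ℚ A.E : ℝ) + 1) / 4 := by
  have hn : 2 ≤ A.n := by
    obtain ⟨σ, k, h1, h2, -⟩ := hex
    omega
  have hn' : (2 : ℝ) ≤ A.n := by exact_mod_cast hn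
  have h1 := hodge_odd hw (A := A)
  have h2 := rank_pos A
  apply defect_le (by nlinarith)
  intro ν hν
  rw [gap_eq hν.poly]
  linarith [var_odd hν hex hw]

theorem defect_four {A : MotSystem K ℓ} (γ : GK K) (hex : ∃ σ k, A.Vertex σ k)
    (hw : Odd A.w) (hn : 4 ≤ A.n) : defect A γ ≤ hodgeVar A - 1 := by
  have hn' : (4 : ℝ) ≤ A.n := by exact_mod_cast hn
  have h1 := hodge_odd hw (A := A)
  have h2 := rank_pos A
  apply defect_le (by nlinarith)
  intro ν hν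
  rw [gap_eq hν.poly]
  linarith [var_four hν hex hn]

end

end Pool.Agent.K3h30.VD
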