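import Pool.Agent.K3h30.VD.Slopes
import Pool.Agent.K3h30.NH.Excess

/-!
# Families of Newton polygons and the defect number
-/

set_option autoImplicit false
set_option linter.all false

namespace Pool.Agent.K3h30.VD

open NumberField IsDedekindDomain Polynomial Filter Topology Finset
open Pool.Agent.W401.Cheb Pool.Agent.W528.Ord Pool.Agent.K3h30.NH
open Pool.Agent.W528.Ord.MultSystem (mv IsDeg1 IsOver)

section

variable {K : Type} [Field K] [NumberField K] {ℓ : ℕ} [Fact ℓ.Prime]

theorem defect_bdd (A : MotSystem K ℓ) (γ : GK K) :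
    BddAbove {b | ∃ ν, IsFamily A γ ν ∧
      ∑ σ : A.E →+* AlgebraicClosure K, gap A.n (A.h σ) (ν σ) = b} := by
  refine ⟨∑ σ : A.E →+* AlgebraicClosure K, ∑ i ∈ range A.n, (((A.h σ).getD i 0 : ℕ) : ℝ) ^ 2, ?_⟩
  rintro b ⟨ν, -, rfl⟩
  apply sum_le_sum
  intro σ _
  have : 0 ≤ ∑ i ∈ range A.n, ν σ i ^ 2 := sum_nonneg fun i _ => sq_nonneg _
  unfold gap
  linarith

theorem le_defect {A : MotSystem K ℓ} {γ : GK K} {ν : (A.E →+* AlgebraicClosure K) → ℕ → ℝ}
    (h : IsFamily A γ ν) :
    ∑ σ : A.E →+* AlgebraicClosure K, gap A.n (A.h σ) (ν σ) ≤ defect A γ :=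
  le_csSup (defect_bdd A γ) ⟨ν, h, rfl⟩

theorem defect_le {A : MotSystem K ℓ} {γ : GK K} {N : ℝ} (hN : 0 ≤ N)
    (h : ∀ ν, IsFamily A γ ν → ∑ σ : A.E →+* AlgebraicClosure K, gap A.n (A.h σ) (ν σ) ≤ N) :
    defect A γ ≤ N := by
  apply Real.sSup_le _ hN
  rintro b ⟨ν, hν, rfl⟩
  exact h ν hν

theorem hp_sum (A : MotSystem K ℓ) (σ : A.E →+* AlgebraicClosure K) (k : ℕ) :
    (A.hp σ k : ℝ) = ∑ i ∈ range k, (((A.h σ).getD i 0 : ℕ) : ℝ) := by
  rw [sum_getD_real]
  rfl

/-- the gap is at least the square of the distance of the slopes -/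
theorem gap_moment {A : MotSystem K ℓ} {ν : (A.E →+* AlgebraicClosure K) → ℕ → ℝ}
    (h : IsPolygon A ν) (σ : A.E →+* AlgebraicClosure K) :
    ∑ i ∈ range A.n, ((((A.h σ).getD i 0 : ℕ) : ℝ) - ν σ i) ^ 2 ≤ gap A.n (A.h σ) (ν σ) := by
  refine moment A.n (fun i => (((A.h σ).getD i 0 : ℕ) : ℝ)) (ν σ) (h.mono σ) ?_ ?_
  · intro k hk
    have := h.above σ k hk
    rw [hp_sum] at this
    exact this
  · have := h.ends σ
    rw [hp_sum] at this
    exact this

theorem gap_nonneg {A : MotSystem K ℓ} {ν : (A.E →+* AlgebraicClosure K) → ℕ → ℝ}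
    (h : IsPolygon A ν) (σ : A.E →+* AlgebraicClosure K) : 0 ≤ gap A.n (A.h σ) (ν σ) :=
  le_trans (sum_nonneg fun i _ => sq_nonneg _) (gap_moment h σ)

theorem defect_nonneg (A : MotSystem K ℓ) (γ : GK K) : 0 ≤ defect A γ := by
  apply Real.sSup_nonneg
  rintro b ⟨ν, hν, rfl⟩
  exact sum_nonneg fun σ _ => gap_nonneg hν.poly σ

theorem mv_bij (A : MotSystem K ℓ) (τ : GK K) :
    Function.Bijective (fun σ : A.E →+* AlgebraicClosure K => mv τ σ) := by
  refine ⟨MultSystem.mv_inj τ, fun σ => ⟨mv τ⁻¹ σ, ?_⟩⟩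
  show mv τ (mv τ⁻¹ σ) = σ
  rw [← MultSystem.mv_mul, mul_inv_cancel, MultSystem.mv_one]

theorem defect_conj {A : MotSystem K ℓ}
    (hr : ∀ (γ : GK K) (σ : A.E →+* AlgebraicClosure K), A.h (mv γ σ) = A.h σ) (γ τ : GK K) :
    defect A (τ * γ * τ⁻¹) ≤ defect A γ := by
  apply defect_le (defect_nonneg A γ)
  intro ν hν
  have hhp : ∀ σ k, A.hp (mv τ σ) k = A.hp σ k := by
    intro σ k
    unfold MotSystem.hp
    rw [hr]
  have hF : IsFamily A γ (fun σ => ν (mv τ σ)) := by
    refine ⟨⟨?_, ?_, ?_, ?_⟩, ?_, ?_, ?_⟩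
    · intro σ i hi
      exact hν.poly.mono _ i hi
    · intro σ k hk
      rw [← hhp]
      exact hν.poly.above _ k hk
    · intro σ
      rw [← hhp]
      exact hν.poly.ends _
    · intro σ k h0 hk h
      exact hν.poly.vertex _ k h0 hk h
    · intro σ i hi
      have h1 := hν.stable (mv τ σ) i hi
      rw [← MultSystem.mv_mul] at h1
      show ν (mv τ (mv γ σ)) i = ν (mv τ σ) i
      rw [← h1, ← MultSystem.mv_mul]
      congr 2
      group
    · intro σ i hi
      exact hν.dual (mv τ σ) i hi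
    · intro hv k h0 hk
      have h1 := hν.small hv k h0 hk
      have h2 := (mv_bij A τ).sum_comp (fun σ => ⌈np (ν σ) k⌉₊)
      rw [← h2] at h1
      exact h1
  refine le_trans (le_of_eq ?_) (le_defect hF)
  rw [← (mv_bij A τ).sum_comp (fun σ => gap A.n (A.h σ) (ν σ))]
  apply sum_congr rfl
  intro σ _
  rw [hr]

theorem defect_fix {ι : Type} [Fintype ι] (A : ι → MotSystem K ℓ) (i : ι) {γ u : GK K}
    (hu : u ∈ MotSystem.fixU A) : defect (A i) (γ * u) ≤ defect (A i) γ := by
  apply defect_le (defect_nonneg _ γ)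
  intro ν hν
  refine le_defect ⟨hν.poly, ?_, hν.dual, hν.small⟩
  intro σ j hj
  have := hν.stable σ j hj
  rwa [MultSystem.mv_mul, hu i σ] at this

/-- the points at which the polygons differ -/
def exc (A : MotSystem K ℓ) (ν : (A.E →+* AlgebraicClosure K) → ℕ → ℝ) (k : ℕ) :
    Set (A.E →+* AlgebraicClosure K) :=
  {σ | k ≤ A.n ∧ (A.hp σ k : ℝ) < np (ν σ) k}

theorem np_succ (ν : ℕ → ℝ) (k : ℕ) : np ν (k + 1) = np ν k + ν k := sum_range_succ _ _

theorem hp_succ (A : MotSystem K ℓ) (σ : A.E →+* AlgebraicClosure K) (k : ℕ) :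
    (A.hp σ (k + 1) : ℝ) = A.hp σ k + (((A.h σ).getD k 0 : ℕ) : ℝ) := by
  rw [hp_sum, hp_sum, sum_range_succ]

theorem mono_le {A : MotSystem K ℓ} {ν : (A.E →+* AlgebraicClosure K) → ℕ → ℝ} (h : IsPolygon A ν)
    (σ : A.E →+* AlgebraicClosure K) {i j : ℕ} (hij : i ≤ j) (hj : j < A.n) : ν σ i ≤ ν σ j := by
  induction j, hij using Nat.le_induction with
  | base => exact le_rfl
  | succ j hij ih => exact (ih (by omega)).trans (h.mono σ j hj)

/-- convexity -/
theorem edge_real {A : MotSystem K ℓ} {ν : (A.E →+* AlgebraicClosure K) → ℕ → ℝ} (h : IsPolygon A ν)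
    (σ : A.E →+* AlgebraicClosure K) (k₁ k k₂ : ℕ) (h1 : k₁ < k) (h2 : k < k₂) (h3 : k₂ ≤ A.n)
    (hc : ∀ i, k₁ ≤ i → i < k₂ → (A.h σ).getD i 0 = (A.h σ).getD k₁ 0)
    (e1 : np (ν σ) k₁ = A.hp σ k₁) (e2 : np (ν σ) k₂ = A.hp σ k₂) : np (ν σ) k = A.hp σ k := by
  set c : ℝ := (((A.h σ).getD k₁ 0 : ℕ) : ℝ) with hcdef
  have hH : ∀ j, k₁ ≤ j → j ≤ k₂ → (A.hp σ j : ℝ) = A.hp σ k₁ + (j - k₁ : ℝ) * c := by
    intro j hj
    induction j, hj using Nat.le_induction with
    | base => intro _; ring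
    | succ j hj ih =>
      intro hj2
      rw [hp_succ, ih (by omega), hc j hj (by omega)]
      push_cast
      ring
  apply le_antisymm _ (h.above σ k (by omega))
  by_contra hlt
  rw [not_le] at hlt
  -- some slope before `k` is larger than `c`
  have hex : ∃ i, k₁ ≤ i ∧ i < k ∧ c < ν σ i := by
    by_contra hcon
    push Not at hcon
    have h4 : ∀ j, k₁ ≤ j → j ≤ k → np (ν σ) j ≤ A.hp σ j := by
      intro j hj
      induction j, hj using Nat.le_induction with
      | base => intro _; exact e1.le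
      | succ j hj ih =>
        intro hj2
        rw [np_succ, hp_succ, hc j hj (by omega)]
        have h5 := ih (by omega)
        have h6 := hcon j hj (by omega)
        linarith
    exact absurd (h4 k h1.le le_rfl) (not_le.mpr hlt)
  obtain ⟨i, hi1, hi2, hi3⟩ := hex
  have h5 : ∀ j, k ≤ j → j ≤ k₂ → (A.hp σ j : ℝ) < np (ν σ) j := by
    intro j hj
    induction j, hj using Nat.le_induction with
    | base => intro _; exact hlt
    | succ j hj ih =>
      intro hj2
      rw [np_succ, hp_succ, hc j (by omega) (by omega)]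
      have h6 := ih (by omega)
      have h7 := mono_le h σ (show i ≤ j by omega) (by omega)
      linarith
  exact absurd e2 (h5 k₂ h2.le le_rfl).ne'

theorem dual_np {A : MotSystem K ℓ} {γ : GK K} {ν : (A.E →+* AlgebraicClosure K) → ℕ → ℝ}
    (h : IsFamily A γ ν) (σ : A.E →+* AlgebraicClosure K) (k : ℕ) (hk : k ≤ A.n) :
    np (ν (σ.comp (A.conj : A.E →+* A.E))) k + np (ν σ) A.n = A.w * k + np (ν σ) (A.n - k) := by
  induction k with
  | zero => simp [np]
  | succ k ih =>
    have h1 := ih (by omega)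
    have h2 := h.dual σ k (by omega)
    have h3 := np_succ (ν σ) (A.n - (k + 1))
    rw [show A.n - (k + 1) + 1 = A.n - k by omega] at h3
    rw [show A.n - 1 - k = A.n - (k + 1) by omega] at h2
    rw [np_succ]
    push_cast
    linarith

/-- the sets of the points at which the polygons differ form an excess family -/
theorem isExcess_exc {A : MotSystem K ℓ} (hH : A.IsHodge)
    {γ : GK K} {ν : (A.E →+* AlgebraicClosure K) → ℕ → ℝ}
    (h : IsFamily A γ ν) : IsExcess A γ (exc A ν) := by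
  classical
  have hinner : Inner A (exc A ν) := by
    rintro k ⟨σ, hk, hσ⟩
    constructor
    · rcases Nat.eq_zero_or_pos k with rfl | h0
      · simp [np, MotSystem.hp] at hσ
      · exact h0
    · rcases lt_or_eq_of_le hk with h0 | rfl
      · exact h0
      · rw [h.poly.ends] at hσ
        exact absurd hσ (lt_irrefl _)
  have hedge : Convex A (exc A ν) := by
    intro σ k₁ k k₂ h1 h2 h3 hc hσ
    by_contra hcon
    rw [not_or] at hcon
    have e1 : np (ν σ) k₁ = A.hp σ k₁ :=
      le_antisymm (not_lt.1 fun hlt => hcon.1 ⟨by omega, hlt⟩) (h.poly.above σ k₁ (by omega))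
    have e2 : np (ν σ) k₂ = A.hp σ k₂ :=
      le_antisymm (not_lt.1 fun hlt => hcon.2 ⟨h3, hlt⟩) (h.poly.above σ k₂ h3)
    have e3 := edge_real h.poly σ k₁ k k₂ h1 h2 h3 hc e1 e2
    have h5 := hσ.2
    rw [e3] at h5
    exact lt_irrefl _ h5
  refine ⟨hinner, ?_, ?_, hedge, ?_⟩
  · rintro k σ ⟨hk, hσ⟩
    refine ⟨hk, ?_⟩
    have e1 : A.hp (mv γ σ) k = A.hp σ k := by
      unfold MotSystem.hp
      rw [(hH σ).2.2.2.2]
    have e2 : np (ν (mv γ σ)) k = np (ν σ) k :=
      sum_congr rfl fun i hi => h.stable σ i (lt_of_lt_of_le (mem_range.1 hi) hk)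
    rw [e1, e2]
    exact hσ
  · rintro k hk σ ⟨-, hσ⟩
    refine ⟨Nat.sub_le _ _, ?_⟩
    have h1 := dual_np h σ (A.n - k) (Nat.sub_le _ _)
    rw [show A.n - (A.n - k) = k by omega, h.poly.ends] at h1
    have h2 : A.hp (σ.comp (A.conj : A.E →+* A.E)) (A.n - k) + A.hp σ A.n =
        A.w * (A.n - k) + A.hp σ k := by
      obtain ⟨h1, h2, h3, h4, h5⟩ := hH σ
      have := dual_sum A.w A.n (A.n - k) (A.h σ) h1 h3 (Nat.sub_le _ _)
      rw [show A.n - (A.n - k) = k by omega] at this
      unfold MotSystem.hp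
      rw [h4, List.take_of_length_le (le_of_eq h1)]
      exact this
    have h3 : (A.hp (σ.comp (A.conj : A.E →+* A.E)) (A.n - k) : ℝ) + A.hp σ A.n =
        A.w * ((A.n - k : ℕ) : ℝ) + A.hp σ k := by exact_mod_cast h2
    linarith
  · intro k hne
    have hk := hinner k hne
    have hex : ∃ σ k, A.Vertex σ k := by
      by_contra hno
      obtain ⟨σ, hσ⟩ := hne
      obtain ⟨h1', h2', h3', h4, h5⟩ := hH σ
      have hconst : ∀ i, 0 ≤ i → i < A.n → (A.h σ).getD i 0 = (A.h σ).getD 0 0 := by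
        intro i hi
        induction i, hi using Nat.le_induction with
        | base => intro _; rfl
        | succ i hai ih =>
          intro hib
          rw [← ih (by omega)]
          have h2 : ¬ ((A.h σ).getD i 0 < (A.h σ).getD (i + 1) 0) := by
            intro h3
            exact hno ⟨σ, i + 1, by omega, by omega, by simpa using h3⟩
          have h4 : (A.h σ).getD i 0 ≤ (A.h σ).getD (i + 1) 0 := by
            have hi1 : i + 1 < (A.h σ).length := by rw [h1']; omega
            rw [List.getD_eq_getElem _ _ hi1,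
              List.getD_eq_getElem _ _ (by omega : i < (A.h σ).length)]
            exact List.pairwise_iff_getElem.mp h2' i (i + 1) (by omega) hi1 (by omega)
          omega
      rcases hedge σ 0 k A.n hk.1 hk.2 le_rfl hconst hσ with h | h
      · have := hinner 0 ⟨σ, h⟩
        omega
      · have := hinner A.n ⟨σ, h⟩
        omega
    have h1 := h.small hex k hk.1 hk.2
    have h3 : ∀ σ : A.E →+* AlgebraicClosure K,
        A.hp σ k + (if σ ∈ exc A ν k then 1 else 0) ≤ ⌈np (ν σ) k⌉₊ := by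
      intro σ
      by_cases hσ : σ ∈ exc A ν k
      · rw [if_pos hσ]
        have := Nat.lt_ceil.2 hσ.2
        omega
      · rw [if_neg hσ, add_zero]
        have h4 := h.poly.above σ k hk.2.le
        exact_mod_cast h4.trans (Nat.le_ceil _)
    have h4 : ∑ σ : A.E →+* AlgebraicClosure K, (A.hp σ k + (if σ ∈ exc A ν k then 1 else 0)) =
        ∑ σ : A.E →+* AlgebraicClosure K, A.hp σ k + (exc A ν k).ncard := by
      rw [Finset.sum_add_distrib]
      congr 1
      rw [Finset.sum_ite, Finset.sum_const_zero, add_zero, Finset.sum_const, smul_eq_mul, mul_one,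
        ← Set.ncard_coe_finset]
      congr 1
      ext σ
      simp
    have h5 := Finset.sum_le_sum (s := Finset.univ) fun σ _ => h3 σ
    rw [h4] at h5
    have h6 : 2 * (∑ σ : A.E →+* AlgebraicClosure K, A.hp σ k + (exc A ν k).ncard) <
        A.w * k * Module.finrank ℚ A.E := lt_of_le_of_lt (Nat.mul_le_mul_left _ h5) h1
    unfold MotSystem.defect
    rw [Finset.sum_sub_distrib, Finset.sum_const, Finset.card_univ, NumberField.Embeddings.card,
      nsmul_eq_mul, ← Finset.mul_sum]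
    zify at h6
    push_cast at h6 ⊢
    linarith

/-- **under the orbit condition the defect number is zero** -/
theorem defect_adm {A : MotSystem K ℓ} {γ : GK K} (hH : A.IsHodge) (hadm : A.Admissible γ) :
    defect A γ = 0 := by
  apply le_antisymm _ (defect_nonneg A γ)
  apply defect_le le_rfl
  intro ν hν
  have hE := isExcess_exc hH hν
  have h0 := number_adm (fun σ => (hH σ).2.1) (fun σ => (hH σ).1) hadm
  have h1 := le_number hE
  rw [h0, Nat.le_zero, Finset.sum_eq_zero_iff] at h1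
  have hempty : ∀ k σ, k < A.n → σ ∉ exc A ν k := by
    intro k σ hk hσ
    have h2 := h1 k (Finset.mem_range.mpr hk)
    rw [Set.ncard_eq_zero (Set.toFinite _)] at h2
    have h3 : σ ∈ exc A ν k ∪ exc A ν (k + 1) := Or.inl hσ
    rw [h2] at h3
    exact h3
  have heq : ∀ σ k, k ≤ A.n → np (ν σ) k = A.hp σ k := by
    intro σ k hk
    rcases lt_or_eq_of_le hk with h2 | rfl
    · apply le_antisymm _ (hν.poly.above σ k hk)
      by_contra hlt
      rw [not_le] at hlt
      exact hempty k σ h2 ⟨hk, hlt⟩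
    · exact hν.poly.ends σ
  have hz : ∀ σ, gap A.n (A.h σ) (ν σ) = 0 := by
    intro σ
    unfold gap
    rw [← sum_sub_distrib]
    apply sum_eq_zero
    intro i hi
    rw [mem_range] at hi
    have h2 := heq σ i hi.le
    have h3 := heq σ (i + 1) hi
    rw [np_succ, hp_succ, h2] at h3
    have h4 : ν σ i = (((A.h σ).getD i 0 : ℕ) : ℝ) := by linarith
    rw [h4, sub_self]
  apply le_of_eq
  exact sum_eq_zero fun σ _ => hz σ

end

end Pool.Agent.K3h30.VD
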