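import Pool.Agent.K3h30.VD.Place
import Pool.Agent.K3h30.OC.Main

/-!
# The class of the generated motives, with coefficients, and the bound for the second moment
-/

set_option autoImplicit false
set_option linter.all false

namespace Pool.Agent.K3h30.VD

open NumberField IsDedekindDomain Polynomial Filter Topology Finset
open Pool.Agent.W401.Cheb Pool.Agent.W528.Ord Pool.Agent.K3h30.NH Pool.Agent.K3h30.OC
open Pool.Agent.R915.Ord (Piece)
open Pool.Agent.W528.Ord.MultSystem (mv IsDeg1 IsOver)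

section coeffs

variable {K : Type} [Field K] [NumberField K] {ℓ : ℕ} [Fact ℓ.Prime] {ι : Type}
    {A : ι → MotSystem K ℓ} {T : Finset ℕ}

theorem Gen.nonneg {U : Obj K} {c : Piece A → ℝ} (h : Gen A T U c) : ∀ x, 0 ≤ c x := by
  induction h with
  | piece x c h1 h0 =>
    intro y
    by_cases hy : y = x
    · rw [hy, h1]; exact zero_le_one
    · rw [h0 y hy]
  | unit => intro x; exact le_rfl
  | iso U V c h hV ih => exact ih
  | sum U V c c' hU hV ih1 ih2 => intro x; exact add_nonneg (ih1 x) (ih2 x)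
  | tensor U V c c' hU hV ih1 ih2 =>
    intro x
    exact add_nonneg (mul_nonneg (Nat.cast_nonneg _) (ih1 x)) (mul_nonneg (Nat.cast_nonneg _) (ih2 x))
  | twist U c j hU ih => exact ih
  | untwist U c j hU ih => exact ih
  | dual U c w hw hU ih => exact ih
  | ext U c k hU ih => intro x; exact mul_nonneg (Nat.cast_nonneg _) (ih x)
  | summand U U' c hU hU' h ih => exact ih
  | factor U U' c hU hU' h0 h ih => intro x; exact div_nonneg (ih x) (Nat.cast_nonneg _)

/-- every generated motive has coefficients -/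
theorem exists_gen {U : Obj K} (h : Generated A T U) : ∃ c : Piece A → ℝ, Gen A T U c := by
  classical
  induction h with
  | piece i σ =>
    exact ⟨fun y => if y = ⟨i, σ⟩ then 1 else 0, Gen.piece ⟨i, σ⟩ _ (if_pos rfl) fun y hy => if_neg hy⟩
  | unit => exact ⟨_, Gen.unit⟩
  | iso U V h hV ih =>
    obtain ⟨c, hc⟩ := ih
    exact ⟨c, Gen.iso U V c h hc⟩
  | sum U V hU hV ih1 ih2 =>
    obtain ⟨c, hc⟩ := ih1
    obtain ⟨c', hc'⟩ := ih2
    exact ⟨_, Gen.sum U V c c' hc hc'⟩
  | tensor U V hU hV ih1 ih2 =>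
    obtain ⟨c, hc⟩ := ih1
    obtain ⟨c', hc'⟩ := ih2
    exact ⟨_, Gen.tensor U V c c' hc hc'⟩
  | twist U j hU ih =>
    obtain ⟨c, hc⟩ := ih
    exact ⟨c, Gen.twist U c j hc⟩
  | untwist U j hU ih =>
    obtain ⟨c, hc⟩ := ih
    exact ⟨c, Gen.untwist U c j hc⟩
  | dual U w hw hU ih =>
    obtain ⟨c, hc⟩ := ih
    exact ⟨c, Gen.dual U c w hw hc⟩
  | summand U U' hU hU' h ih =>
    obtain ⟨c, hc⟩ := ih
    exact ⟨c, Gen.summand U U' c hU hU' hc⟩
  | factor U U' hU hU' h0 h ih =>
    obtain ⟨c, hc⟩ := ih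
    exact ⟨_, Gen.factor U U' c hU hU' h0 hc⟩

end coeffs

section local_

variable {K : Type} [Field K] [NumberField K] {p : ℕ} [hpf : Fact p.Prime]

/-- the absolute values of the Frobenius eigenvalues -/
noncomputable def norms (τ : AlgebraicClosure K →+* PadicAlgCl p) (v : HeightOneSpectrum (𝓞 K))
    (U : Obj K) : Multiset ℝ := (U.eig v).map fun x => ‖τ x‖

/-- the difference of the second moments of the Hodge slopes and the Newton slopes -/
noncomputable def gp (τ : AlgebraicClosure K →+* PadicAlgCl p) (v : HeightOneSpectrum (𝓞 K))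
    (U : Obj K) : ℝ := s2 (ho U.slopes) - s2 (nu p (norms τ v U))

/-- the invariants of the induction -/
structure Fine (τ : AlgebraicClosure K →+* PadicAlgCl p) (v : HeightOneSpectrum (𝓞 K))
    (U : Obj K) : Prop where
  card : Multiset.card (U.eig v) = Multiset.card U.slopes
  ne : ∀ x ∈ U.eig v, x ≠ 0
  sum : (nu p (norms τ v U)).sum = (ho U.slopes).sum

variable {τ : AlgebraicClosure K →+* PadicAlgCl p} {v : HeightOneSpectrum (𝓞 K)}

theorem norms_pos {U : Obj K} (h : ∀ x ∈ U.eig v, x ≠ 0) : ∀ y ∈ norms τ v U, 0 < y := by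
  intro y hy
  obtain ⟨x, hx, rfl⟩ := Multiset.mem_map.1 hy
  exact norm_pos_iff.2 ((map_ne_zero τ).2 (h x hx))

theorem card_norms (U : Obj K) : Multiset.card (norms τ v U) = Multiset.card (U.eig v) := by
  unfold norms
  rw [Multiset.card_map]

theorem nu_map (M : Multiset (AlgebraicClosure K)) (τ : AlgebraicClosure K →+* PadicAlgCl p) :
    nu p (M.map fun x => ‖τ x‖) = M.map fun x => - Real.logb p ‖τ x‖ := by
  unfold nu
  rw [Multiset.map_map]
  rfl

theorem ho_add (H H' : Multiset ℕ) : ho (H + H') = ho H + ho H' := by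
  unfold ho
  rw [Multiset.map_add]

theorem nu_add (N N' : Multiset ℝ) : nu p (N + N') = nu p N + nu p N' := by
  unfold nu
  rw [Multiset.map_add]

theorem norms_sum (U V : Obj K) : norms τ v (U.sum V) = norms τ v U + norms τ v V := by
  unfold norms Obj.sum
  simp only [Multiset.map_add]

theorem fine_sum {U V : Obj K} (hU : Fine τ v U) (hV : Fine τ v V) : Fine τ v (U.sum V) := by
  refine ⟨?_, ?_, ?_⟩
  · unfold Obj.sum
    rw [Multiset.card_add, Multiset.card_add, hU.card, hV.card]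
  · intro x hx
    rcases Multiset.mem_add.1 hx with h | h
    · exact hU.ne x h
    · exact hV.ne x h
  · rw [norms_sum, nu_add, Multiset.sum_add, hU.sum, hV.sum]
    show _ = (ho (U.slopes + V.slopes)).sum
    rw [ho_add, Multiset.sum_add]

theorem gp_sum (U V : Obj K) : gp τ v (U.sum V) = gp τ v U + gp τ v V := by
  unfold gp
  rw [norms_sum, nu_add, s2_add]
  have e : (U.sum V).slopes = U.slopes + V.slopes := rfl
  rw [e, ho_add, s2_add]
  ring

theorem nu_tensor {U V : Obj K} (hU : ∀ x ∈ U.eig v, x ≠ 0) (hV : ∀ x ∈ V.eig v, x ≠ 0) :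
    nu p (norms τ v (U.tensor V)) = addM (nu p (norms τ v U)) (nu p (norms τ v V)) := by
  unfold norms addM Obj.tensor
  rw [nu_map, nu_map, nu_map, ← Pool.Agent.R915.Ord.map_product, Multiset.map_map, Multiset.map_map]
  apply Multiset.map_congr rfl
  rintro ⟨x, y⟩ hxy
  obtain ⟨hx, hy⟩ := Multiset.mem_product.1 hxy
  simp only [Function.comp, map_mul, norm_mul]
  rw [Real.logb_mul (norm_ne_zero_iff.2 ((map_ne_zero τ).2 (hU x hx)))
    (norm_ne_zero_iff.2 ((map_ne_zero τ).2 (hV y hy)))]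
  ring

theorem ho_tensor (H H' : Multiset ℕ) : ho ((H ×ˢ H').map fun y => y.1 + y.2) = addM (ho H) (ho H') := by
  unfold ho addM
  rw [← Pool.Agent.R915.Ord.map_product, Multiset.map_map, Multiset.map_map]
  apply Multiset.map_congr rfl
  rintro ⟨x, y⟩ -
  simp

theorem fine_tensor {U V : Obj K} (hU : Fine τ v U) (hV : Fine τ v V) : Fine τ v (U.tensor V) := by
  refine ⟨?_, ?_, ?_⟩
  · show Multiset.card ((U.eig v ×ˢ V.eig v).map _) = Multiset.card ((U.slopes ×ˢ V.slopes).map _)
    rw [Multiset.card_map, Multiset.card_map, Multiset.card_product, Multiset.card_product, hU.card,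
      hV.card]
  · intro x hx
    obtain ⟨⟨a, b⟩, hab, rfl⟩ := Multiset.mem_map.1 hx
    obtain ⟨ha, hb⟩ := Multiset.mem_product.1 hab
    exact mul_ne_zero (hU.ne a ha) (hV.ne b hb)
  · rw [nu_tensor hU.ne hV.ne, sum_addM, hU.sum, hV.sum, card_nu, card_nu, card_norms, card_norms,
      hU.card, hV.card]
    show _ = (ho ((U.slopes ×ˢ V.slopes).map fun y => y.1 + y.2)).sum
    rw [ho_tensor, sum_addM, card_ho, card_ho]

theorem gp_tensor {U V : Obj K} (hU : Fine τ v U) (hV : Fine τ v V) :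
    gp τ v (U.tensor V) =
      Multiset.card V.slopes * gp τ v U + Multiset.card U.slopes * gp τ v V := by
  unfold gp
  rw [nu_tensor hU.ne hV.ne, s2_addM, hU.sum, hV.sum, card_nu, card_nu, card_norms, card_norms,
    hU.card, hV.card]
  have e : (U.tensor V).slopes = (U.slopes ×ˢ V.slopes).map fun y => y.1 + y.2 := rfl
  rw [e, ho_tensor, s2_addM, card_ho, card_ho]
  ring

section twist

variable (hpe : Ideal.absNorm v.asIdeal = p)

include hpe in
theorem res_ne : (Obj.res v : AlgebraicClosure K) ≠ 0 := by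
  unfold Obj.res
  rw [hpe]
  exact_mod_cast hpf.out.ne_zero

include hpe in
theorem nu_twist {U : Obj K} (j : ℕ) (hU : ∀ x ∈ U.eig v, x ≠ 0) :
    nu p (norms τ v (U.twist j)) = (nu p (norms τ v U)).map fun x => (j : ℝ) + x := by
  unfold norms
  rw [norm_twist hpe]
  unfold nu
  rw [Multiset.map_map, Multiset.map_map, Multiset.map_map, Multiset.map_map]
  apply Multiset.map_congr rfl
  intro x hx
  simp only [Function.comp]
  rw [Real.logb_mul (pow_ne_zero _ (q_pos p).ne')
    (norm_ne_zero_iff.2 ((map_ne_zero τ).2 (hU x hx))), neg_add, logb_q_pow]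

theorem ho_twist (H : Multiset ℕ) (j : ℕ) :
    ho (H.map fun a => j + a) = (ho H).map fun x => (j : ℝ) + x := by
  unfold ho
  rw [Multiset.map_map, Multiset.map_map]
  apply Multiset.map_congr rfl
  intro x _
  simp

include hpe in
theorem fine_twist {U : Obj K} (j : ℕ) : Fine τ v (U.twist j) ↔ Fine τ v U := by
  have hc : Multiset.card ((U.twist j).eig v) = Multiset.card (U.twist j).slopes ↔
      Multiset.card (U.eig v) = Multiset.card U.slopes := by
    show Multiset.card ((U.eig v).map _) = Multiset.card (U.slopes.map _) ↔ _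
    rw [Multiset.card_map, Multiset.card_map]
  have hn : (∀ x ∈ (U.twist j).eig v, x ≠ 0) ↔ ∀ x ∈ U.eig v, x ≠ 0 := by
    constructor
    · intro h x hx h0
      refine h (Obj.res v ^ j * x) (Multiset.mem_map_of_mem _ hx) ?_
      rw [h0, mul_zero]
    · intro h x hx
      obtain ⟨y, hy, rfl⟩ := Multiset.mem_map.1 hx
      exact mul_ne_zero (pow_ne_zero _ (res_ne hpe)) (h y hy)
  have hs : ∀ (h1 : Multiset.card (U.eig v) = Multiset.card U.slopes) (h2 : ∀ x ∈ U.eig v, x ≠ 0),
      ((nu p (norms τ v (U.twist j))).sum = (ho (U.twist j).slopes).sum ↔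
        (nu p (norms τ v U)).sum = (ho U.slopes).sum) := by
    intro h1 h2
    have e : (U.twist j).slopes = U.slopes.map fun a => j + a := rfl
    rw [nu_twist hpe j h2, e, ho_twist, sum_shift, sum_shift, card_nu, card_norms, h1, card_ho]
    exact add_right_inj _
  constructor
  · rintro ⟨h1, h2, h3⟩
    exact ⟨hc.1 h1, hn.1 h2, (hs (hc.1 h1) (hn.1 h2)).1 h3⟩
  · rintro ⟨h1, h2, h3⟩
    exact ⟨hc.2 h1, hn.2 h2, (hs h1 h2).2 h3⟩

include hpe in
theorem gp_twist {U : Obj K} (j : ℕ) (hU : Fine τ v U) : gp τ v (U.twist j) = gp τ v U := by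
  unfold gp
  have e : (U.twist j).slopes = U.slopes.map fun a => j + a := rfl
  rw [nu_twist hpe j hU.ne, e, ho_twist, s2_shift, s2_shift, card_nu, card_norms, hU.card, card_ho,
    hU.sum]
  ring

include hpe in
theorem nu_dual {U : Obj K} (w : ℕ) (hU : ∀ x ∈ U.eig v, x ≠ 0) :
    nu p (norms τ v (U.dual w)) = (nu p (norms τ v U)).map fun x => (w : ℝ) - x := by
  unfold norms Obj.dual
  rw [nu_map, nu_map, Multiset.map_map, Multiset.map_map]
  apply Multiset.map_congr rfl
  intro x hx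
  simp only [Function.comp, map_mul, map_pow, norm_mul, norm_pow, norm_res hpe, map_inv₀, norm_inv]
  have hx0 : ‖τ x‖ ≠ 0 := norm_ne_zero_iff.2 ((map_ne_zero τ).2 (hU x hx))
  rw [Real.logb_mul (pow_ne_zero _ (q_pos p).ne') (inv_ne_zero hx0), neg_add, logb_q_pow,
    Real.logb_inv]
  ring

theorem ho_dual (H : Multiset ℕ) (w : ℕ) (hw : ∀ a ∈ H, a ≤ w) :
    ho (H.map fun a => w - a) = (ho H).map fun x => (w : ℝ) - x := by
  unfold ho
  rw [Multiset.map_map, Multiset.map_map]
  apply Multiset.map_congr rfl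
  intro x hx
  simp only [Function.comp]
  rw [Nat.cast_sub (hw x hx)]

include hpe in
theorem fine_dual {U : Obj K} (w : ℕ) (hw : ∀ a ∈ U.slopes, a ≤ w) (hU : Fine τ v U) :
    Fine τ v (U.dual w) := by
  refine ⟨?_, ?_, ?_⟩
  · show Multiset.card ((U.eig v).map _) = Multiset.card (U.slopes.map _)
    rw [Multiset.card_map, Multiset.card_map, hU.card]
  · intro x hx
    obtain ⟨y, hy, rfl⟩ := Multiset.mem_map.1 hx
    exact mul_ne_zero (pow_ne_zero _ (res_ne hpe)) (inv_ne_zero (hU.ne y hy))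
  · have e : (U.dual w).slopes = U.slopes.map fun a => w - a := rfl
    rw [nu_dual hpe w hU.ne, e, ho_dual _ _ hw, sum_reflect, sum_reflect, card_nu, card_norms, hU.card,
      card_ho, hU.sum]

include hpe in
theorem gp_dual {U : Obj K} (w : ℕ) (hw : ∀ a ∈ U.slopes, a ≤ w) (hU : Fine τ v U) :
    gp τ v (U.dual w) = gp τ v U := by
  unfold gp
  have e : (U.dual w).slopes = U.slopes.map fun a => w - a := rfl
  rw [nu_dual hpe w hU.ne, e, ho_dual _ _ hw, s2_reflect, s2_reflect, card_nu, card_norms, hU.card,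
    card_ho, hU.sum]
  ring

end twist

theorem logb_prod (s : Multiset (AlgebraicClosure K)) (h : ∀ x ∈ s, x ≠ 0) :
    - Real.logb p ‖τ s.prod‖ = (s.map fun x => - Real.logb p ‖τ x‖).sum := by
  induction s using Multiset.induction_on with
  | empty => simp
  | cons a s ih =>
    have ha := h a (Multiset.mem_cons_self _ _)
    have hs : ∀ x ∈ s, x ≠ 0 := fun x hx => h x (Multiset.mem_cons_of_mem hx)
    have hp0 : s.prod ≠ 0 := Multiset.prod_ne_zero fun h0 => hs 0 h0 rfl
    rw [Multiset.prod_cons, map_mul, norm_mul,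
      Real.logb_mul (norm_ne_zero_iff.2 ((map_ne_zero τ).2 ha))
        (norm_ne_zero_iff.2 ((map_ne_zero τ).2 hp0)), Multiset.map_cons, Multiset.sum_cons, ← ih hs]
    ring

theorem nu_ext {U : Obj K} (k : ℕ) (hU : ∀ x ∈ U.eig v, x ≠ 0) :
    nu p (norms τ v (extObj U k)) = extM k (nu p (norms τ v U)) := by
  unfold norms extObj extM
  rw [nu_map, nu_map, Multiset.powersetCard_map, Multiset.map_map, Multiset.map_map]
  apply Multiset.map_congr rfl
  intro s hs
  simp only [Function.comp]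
  exact logb_prod s fun x hx => hU x (Multiset.mem_of_le (Multiset.mem_powersetCard.1 hs).1 hx)

theorem ho_ext (H : Multiset ℕ) (k : ℕ) :
    ho ((Multiset.powersetCard k H).map Multiset.sum) = extM k (ho H) := by
  unfold ho extM
  rw [Multiset.powersetCard_map, Multiset.map_map, Multiset.map_map]
  apply Multiset.map_congr rfl
  intro s _
  simp only [Function.comp]
  exact Nat.cast_multiset_sum _

theorem fine_ext {U : Obj K} (k : ℕ) (hU : Fine τ v U) : Fine τ v (extObj U k) := by
  refine ⟨?_, ?_, ?_⟩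
  · show Multiset.card ((Multiset.powersetCard k (U.eig v)).map _) =
      Multiset.card ((Multiset.powersetCard k U.slopes).map _)
    rw [Multiset.card_map, Multiset.card_map, Multiset.card_powersetCard, Multiset.card_powersetCard,
      hU.card]
  · intro x hx
    obtain ⟨s, hs, rfl⟩ := Multiset.mem_map.1 hx
    have h1 := (Multiset.mem_powersetCard.1 hs).1
    exact Multiset.prod_ne_zero fun h0 => hU.ne 0 (Multiset.mem_of_le h1 h0) rfl
  · have e : (extObj U k).slopes = (Multiset.powersetCard k U.slopes).map Multiset.sum := rfl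
    rw [nu_ext k hU.ne, e, ho_ext, sum_extM, sum_extM, card_nu, card_norms, hU.card, card_ho, hU.sum]

theorem gp_ext {U : Obj K} (k : ℕ) (hU : Fine τ v U) :
    gp τ v (extObj U k) = be (Multiset.card U.slopes) k * gp τ v U := by
  unfold gp
  have e : (extObj U k).slopes = (Multiset.powersetCard k U.slopes).map Multiset.sum := rfl
  have h1 := s2_extM_sub k (ho U.slopes) (nu p (norms τ v U))
    (by rw [card_ho, card_nu, card_norms, hU.card]) hU.sum.symm
  rw [card_nu, card_norms, hU.card] at h1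
  rw [nu_ext k hU.ne, e, ho_ext, h1]

section mazur

variable (hpe : Ideal.absNorm v.asIdeal = p)
  {Q : Ideal (𝓞 (AlgebraicClosure K))} (hQ : IsOver Q v)
  (hτ : ∀ x : 𝓞 (AlgebraicClosure K), x ∈ Q ↔ ‖τ (x : AlgebraicClosure K)‖ < 1)
  {T : Finset ℕ} (hv : IsDeg1 T v)

include hpe hQ hτ hv in
theorem mazur_card {U : Obj K} (hU : U.Mazur T) : Multiset.card (U.eig v) = Multiset.card U.slopes := by
  have h := (mazur_gauss hpe hQ hτ hv hU).1
  rwa [Multiset.card_map, Multiset.card_map] at h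

include hpe hQ hτ hv in
theorem mazur_sum {U : Obj K} (hU : U.Mazur T) (hne : ∀ x ∈ U.eig v, x ≠ 0) :
    (ho U.slopes).sum ≤ (nu p (norms τ v U)).sum :=
  sum_above (norms_pos hne) (by rw [card_norms, mazur_card hpe hQ hτ hv hU])
    (mazur_gauss hpe hQ hτ hv hU).2

include hpe hQ hτ hv in
theorem mazur_gp {U : Obj K} (hU : U.Mazur T) (hF : Fine τ v U) : 0 ≤ gp τ v U :=
  s2_le (norms_pos hF.ne) (by rw [card_norms, hF.card]) (mazur_gauss hpe hQ hτ hv hU).2 hF.sum

include hpe hQ hτ hv in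
theorem fine_summand {U U' : Obj K} (hU : U.Mazur T) (hU' : U'.Mazur T) (h : Fine τ v (U.sum U')) :
    Fine τ v U ∧ Fine τ v U' := by
  have h1 : ∀ x ∈ U.eig v, x ≠ 0 := fun x hx => h.ne x (Multiset.mem_add.2 (Or.inl hx))
  have h2 : ∀ x ∈ U'.eig v, x ≠ 0 := fun x hx => h.ne x (Multiset.mem_add.2 (Or.inr hx))
  have h3 := mazur_sum hpe hQ hτ hv hU h1
  have h4 := mazur_sum hpe hQ hτ hv hU' h2
  have h5 := h.sum
  have e : (U.sum U').slopes = U.slopes + U'.slopes := rfl
  rw [norms_sum, nu_add, e, ho_add, Multiset.sum_add, Multiset.sum_add] at h5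
  exact ⟨⟨mazur_card hpe hQ hτ hv hU, h1, by linarith⟩, ⟨mazur_card hpe hQ hτ hv hU', h2, by linarith⟩⟩

include hpe hQ hτ hv in
theorem fine_factor {U U' : Obj K} (hU : U.Mazur T) (hU' : U'.Mazur T) (h0 : U'.slopes ≠ 0)
    (hne : U.slopes ≠ 0) (h : Fine τ v (U.tensor U')) : Fine τ v U ∧ Fine τ v U' := by
  have hc := mazur_card hpe hQ hτ hv hU
  have hc' := mazur_card hpe hQ hτ hv hU'
  have hpos : 0 < Multiset.card U.slopes := Multiset.card_pos.2 hne
  have hpos' : 0 < Multiset.card U'.slopes := Multiset.card_pos.2 h0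
  obtain ⟨a, ha⟩ := Multiset.card_pos_iff_exists_mem.1 (hc ▸ hpos : 0 < Multiset.card (U.eig v))
  obtain ⟨b, hb⟩ := Multiset.card_pos_iff_exists_mem.1 (hc' ▸ hpos' : 0 < Multiset.card (U'.eig v))
  have hm : ∀ x ∈ U.eig v, ∀ y ∈ U'.eig v, x * y ≠ 0 := fun x hx y hy =>
    h.ne (x * y) (Multiset.mem_map.2 ⟨(x, y), Multiset.mem_product.2 ⟨hx, hy⟩, rfl⟩)
  have h1 : ∀ x ∈ U.eig v, x ≠ 0 := fun x hx => left_ne_zero_of_mul (hm x hx b hb)
  have h2 : ∀ x ∈ U'.eig v, x ≠ 0 := fun x hx => right_ne_zero_of_mul (hm a ha x hx)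
  have h3 := mazur_sum hpe hQ hτ hv hU h1
  have h4 := mazur_sum hpe hQ hτ hv hU' h2
  have h5 := h.sum
  have e : (U.tensor U').slopes = (U.slopes ×ˢ U'.slopes).map fun y => y.1 + y.2 := rfl
  rw [nu_tensor h1 h2, e, ho_tensor, sum_addM, sum_addM, card_nu, card_nu, card_norms, card_norms, hc,
    hc', card_ho, card_ho] at h5
  have h6 : (0 : ℝ) < Multiset.card U.slopes := by exact_mod_cast hpos
  have h7 : (0 : ℝ) < Multiset.card U'.slopes := by exact_mod_cast hpos'
  refine ⟨⟨hc, h1, ?_⟩, ⟨hc', h2, ?_⟩⟩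
  · apply le_antisymm _ h3
    by_contra hlt
    rw [not_le] at hlt
    nlinarith [mul_lt_mul_of_pos_left hlt h7, mul_le_mul_of_nonneg_left h4 h6.le]
  · apply le_antisymm _ h4
    by_contra hlt
    rw [not_le] at hlt
    nlinarith [mul_lt_mul_of_pos_left hlt h6, mul_le_mul_of_nonneg_left h3 h7.le]

end mazur

end local_

end Pool.Agent.K3h30.VD
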