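import Pool.Agent.K3h30.VD.Defs

/-!
# Second moments: majorisation, sums, tensor products, exterior powers
-/

set_option autoImplicit false
set_option linter.all false

namespace Pool.Agent.K3h30.VD

open Finset

theorem abel_le (n : ℕ) (ν d : ℕ → ℝ) (hm : ∀ i, i + 1 < n → ν i ≤ ν (i + 1))
    (hd : ∀ k ≤ n, 0 ≤ ∑ i ∈ range k, d i) (k : ℕ) (hk : k + 1 ≤ n) :
    ∑ i ∈ range (k + 1), ν i * d i ≤ ν k * ∑ i ∈ range (k + 1), d i := by
  induction k with
  | zero => simp
  | succ k ih =>
    have h1 := ih (by omega)
    have h2 := hm k (by omega)
    have h3 := hd (k + 1) (by omega)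
    rw [sum_range_succ, sum_range_succ _ (k + 1), mul_add]
    have h4 : ν k * ∑ i ∈ range (k + 1), d i ≤ ν (k + 1) * ∑ i ∈ range (k + 1), d i :=
      mul_le_mul_of_nonneg_right h2 h3
    linarith

/-- **the second moment**: if the polygon with the slopes `ν` lies above the polygon with the slopes `h`
and has the same end point, then the second moment of `ν` is smaller by at least `Σ (h - ν) ^ 2` -/
theorem moment (n : ℕ) (h ν : ℕ → ℝ) (hm : ∀ i, i + 1 < n → ν i ≤ ν (i + 1))
    (hle : ∀ k ≤ n, ∑ i ∈ range k, h i ≤ ∑ i ∈ range k, ν i)
    (heq : ∑ i ∈ range n, ν i = ∑ i ∈ range n, h i) :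
    ∑ i ∈ range n, (h i - ν i) ^ 2 ≤ ∑ i ∈ range n, h i ^ 2 - ∑ i ∈ range n, ν i ^ 2 := by
  have key : ∑ i ∈ range n, ν i * (ν i - h i) ≤ 0 := by
    rcases n with _ | n
    · simp
    · have h1 := abel_le (n + 1) ν (fun i => ν i - h i) hm (fun k hk => by
        rw [sum_sub_distrib]
        linarith [hle k hk]) n le_rfl
      rw [sum_sub_distrib, heq, sub_self, mul_zero] at h1
      exact h1
  have e : ∑ i ∈ range n, (h i - ν i) ^ 2 = ∑ i ∈ range n, h i ^ 2 - ∑ i ∈ range n, ν i ^ 2 +
      2 * ∑ i ∈ range n, ν i * (ν i - h i) := by
    rw [mul_sum, ← sum_sub_distrib, ← sum_add_distrib]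
    apply sum_congr rfl
    intro i _
    ring
  linarith

/-- the second moment of a multiset -/
def s2 (M : Multiset ℝ) : ℝ := (M.map fun x => x ^ 2).sum

theorem s2_zero : s2 0 = 0 := by simp [s2]

theorem s2_cons (a : ℝ) (M : Multiset ℝ) : s2 (a ::ₘ M) = a ^ 2 + s2 M := by simp [s2]

theorem s2_add (M N : Multiset ℝ) : s2 (M + N) = s2 M + s2 N := by
  unfold s2
  rw [Multiset.map_add, Multiset.sum_add]

theorem sum_shift (a : ℝ) (M : Multiset ℝ) :
    (M.map fun x => a + x).sum = Multiset.card M * a + M.sum := by
  induction M using Multiset.induction_on with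
  | empty => simp
  | cons b M ih =>
    rw [Multiset.map_cons, Multiset.sum_cons, ih, Multiset.sum_cons, Multiset.card_cons]
    push_cast
    ring

theorem s2_shift (a : ℝ) (M : Multiset ℝ) :
    s2 (M.map fun x => a + x) = Multiset.card M * a ^ 2 + 2 * a * M.sum + s2 M := by
  induction M using Multiset.induction_on with
  | empty => simp [s2]
  | cons b M ih =>
    rw [Multiset.map_cons, s2_cons, ih, Multiset.sum_cons, Multiset.card_cons, s2_cons]
    push_cast
    ring

theorem sum_reflect (a : ℝ) (M : Multiset ℝ) :
    (M.map fun x => a - x).sum = Multiset.card M * a - M.sum := by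
  induction M using Multiset.induction_on with
  | empty => simp
  | cons b M ih =>
    rw [Multiset.map_cons, Multiset.sum_cons, ih, Multiset.sum_cons, Multiset.card_cons]
    push_cast
    ring

theorem s2_reflect (a : ℝ) (M : Multiset ℝ) :
    s2 (M.map fun x => a - x) = Multiset.card M * a ^ 2 - 2 * a * M.sum + s2 M := by
  induction M using Multiset.induction_on with
  | empty => simp [s2]
  | cons b M ih =>
    rw [Multiset.map_cons, s2_cons, ih, Multiset.sum_cons, Multiset.card_cons, s2_cons]
    push_cast
    ring

/-- the slopes of a tensor product -/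
def addM (M N : Multiset ℝ) : Multiset ℝ := (M ×ˢ N).map fun y => y.1 + y.2

theorem addM_zero (N : Multiset ℝ) : addM 0 N = 0 := by simp [addM]

theorem addM_cons (a : ℝ) (M N : Multiset ℝ) : addM (a ::ₘ M) N = (N.map fun x => a + x) + addM M N := by
  unfold addM
  rw [Multiset.cons_product, Multiset.map_add, Multiset.map_map]
  rfl

theorem card_addM (M N : Multiset ℝ) : Multiset.card (addM M N) = Multiset.card M * Multiset.card N := by
  unfold addM
  rw [Multiset.card_map, Multiset.card_product]

theorem sum_addM (M N : Multiset ℝ) :
    (addM M N).sum = Multiset.card N * M.sum + Multiset.card M * N.sum := by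
  induction M using Multiset.induction_on with
  | empty => simp [addM]
  | cons a M ih =>
    rw [addM_cons, Multiset.sum_add, ih, sum_shift, Multiset.sum_cons, Multiset.card_cons]
    push_cast
    ring

theorem s2_addM (M N : Multiset ℝ) :
    s2 (addM M N) = Multiset.card N * s2 M + 2 * M.sum * N.sum + Multiset.card M * s2 N := by
  induction M using Multiset.induction_on with
  | empty => simp [addM, s2]
  | cons a M ih =>
    rw [addM_cons, s2_add, ih, s2_shift, Multiset.sum_cons, Multiset.card_cons, s2_cons]
    push_cast
    ring

/-- the slopes of an exterior power -/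
def extM (k : ℕ) (M : Multiset ℝ) : Multiset ℝ := (Multiset.powersetCard k M).map Multiset.sum

theorem extM_zero (M : Multiset ℝ) : extM 0 M = {0} := by simp [extM]

theorem extM_succ_zero (k : ℕ) : extM (k + 1) 0 = 0 := by
  unfold extM
  rw [Multiset.powersetCard_eq_empty _ (by simp), Multiset.map_zero]

theorem extM_cons (k : ℕ) (a : ℝ) (M : Multiset ℝ) :
    extM (k + 1) (a ::ₘ M) = extM (k + 1) M + (extM k M).map fun x => a + x := by
  unfold extM
  rw [Multiset.powersetCard_cons, Multiset.map_add, Multiset.map_map, Multiset.map_map]
  congr 1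
  apply Multiset.map_congr rfl
  intro s _
  simp

theorem card_extM (k : ℕ) (M : Multiset ℝ) : Multiset.card (extM k M) = (Multiset.card M).choose k := by
  unfold extM
  rw [Multiset.card_map, Multiset.card_powersetCard]

/-- the coefficient of the sum in the sum of an exterior power -/
def al : ℕ → ℕ → ℕ
  | _, 0 => 0
  | 0, _ + 1 => 0
  | n + 1, k + 1 => n.choose k

theorem al_zero (n : ℕ) : al n 0 = 0 := by cases n <;> rfl

theorem al_pascal (n k : ℕ) : al (n + 1) (k + 1) + al (n + 1) k = (n + 1).choose k := by
  cases k with
  | zero => simp [al]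
  | succ k =>
    show n.choose (k + 1) + n.choose k = (n + 1).choose (k + 1)
    rw [Nat.choose_succ_succ, add_comm]

theorem sum_extM (k : ℕ) (M : Multiset ℝ) : (extM k M).sum = al (Multiset.card M) k * M.sum := by
  induction M using Multiset.induction_on generalizing k with
  | empty =>
    cases k with
    | zero => simp [extM_zero]
    | succ k => simp [extM_succ_zero]
  | cons a M ih =>
    cases k with
    | zero => rw [extM_zero, al_zero]; simp
    | succ k =>
      rw [extM_cons, Multiset.sum_add, sum_shift, card_extM, ih, ih, Multiset.sum_cons,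
        Multiset.card_cons]
      have e : al (Multiset.card M + 1) (k + 1) = (Multiset.card M).choose k := rfl
      rw [e]
      rcases Nat.eq_zero_or_pos (Multiset.card M) with h0 | h0
      · have hM : M = 0 := Multiset.card_eq_zero.1 h0
        subst hM
        simp
      · obtain ⟨n, hn⟩ := Nat.exists_eq_add_of_lt h0
        rw [zero_add] at hn
        have h1 := al_pascal n k
        rw [← hn] at h1
        have h2 : ((al (Multiset.card M) (k + 1) : ℕ) : ℝ) + (al (Multiset.card M) k : ℕ) =
            ((Multiset.card M).choose k : ℕ) := by exact_mod_cast h1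
        rw [← h2]
        ring

theorem be_zero (n : ℕ) : be n 0 = 0 := rfl

theorem be_succ (n k : ℕ) : be n (k + 1) = (n - 2).choose k := rfl

/-- the second moment of an exterior power -/
theorem s2_extM (k : ℕ) (M : Multiset ℝ) (h2 : 2 ≤ Multiset.card M) :
    s2 (extM k M) = be (Multiset.card M) k * s2 M +
      ((Multiset.card M - 2).choose (k - 2) * (if 2 ≤ k then 1 else 0)) * M.sum ^ 2 := by
  induction M using Multiset.induction_on generalizing k with
  | empty => simp at h2
  | cons a M ih =>
    rw [Multiset.card_cons] at h2
    cases k with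
    | zero => rw [extM_zero, be_zero]; simp [s2]
    | succ k =>
      rw [extM_cons, s2_add, s2_shift, card_extM, sum_extM, Multiset.card_cons, s2_cons,
        Multiset.sum_cons]
      rcases Nat.lt_or_ge (Multiset.card M) 2 with h3 | h3
      · -- one element in `M`
        have h4 : Multiset.card M = 1 := by omega
        obtain ⟨b, rfl⟩ := Multiset.card_eq_one.1 h4
        rw [Multiset.card_singleton, Multiset.sum_singleton]
        have hb : s2 {b} = b ^ 2 := by simp [s2]
        have hx : ∀ k, extM (k + 1) {b} = if k = 0 then {b} else 0 := by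
          intro k
          have : ({b} : Multiset ℝ) = b ::ₘ 0 := rfl
          rw [this, extM_cons, extM_succ_zero, zero_add]
          cases k with
          | zero => simp [extM_zero]
          | succ k => simp [extM_succ_zero]
        rcases k with _ | _ | k
        · rw [hx, if_pos rfl, extM_zero, hb]
          simp [be, al, s2]
          ring
        · rw [hx, hx, if_neg (by omega), if_pos rfl, hb]
          simp [be, al, s2]
          ring
        · rw [hx, hx, if_neg (by omega), if_neg (by omega), hb]
          have e1 : Nat.choose 1 (k + 1 + 1) = 0 := Nat.choose_eq_zero_of_lt (by omega)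
          simp [be, al, s2, e1]
      · obtain ⟨n, hn⟩ := Nat.exists_eq_add_of_le h3
        rw [ih (k + 1) h3, ih k h3]
        rw [hn]
        rcases k with _ | _ | k
        · simp [be, al]
          ring
        · have e1 : be (2 + n) 2 = n := by
            show (2 + n - 2).choose 1 = n
            rw [show 2 + n - 2 = n by omega, Nat.choose_one_right]
          have e2 : be (2 + n) 1 = 1 := by simp [be]
          have e3 : be (2 + n + 1) 2 = n + 1 := by
            show (2 + n + 1 - 2).choose 1 = n + 1
            rw [show 2 + n + 1 - 2 = n + 1 by omega, Nat.choose_one_right]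
          have e4 : al (2 + n) 1 = 1 := by
            rw [show 2 + n = (n + 1) + 1 by omega]
            simp [al]
          simp only [zero_add, e1, e2, e4, Nat.choose_one_right]
          rw [show (1 + 1 : ℕ) = 2 by rfl, e3]
          simp
          ring
        · have e1 : be (2 + n) (k + 3) = n.choose (k + 2) := by
            show (2 + n - 2).choose (k + 2) = _
            rw [show 2 + n - 2 = n by omega]
          have e2 : be (2 + n) (k + 2) = n.choose (k + 1) := by
            show (2 + n - 2).choose (k + 1) = _
            rw [show 2 + n - 2 = n by omega]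
          have e3 : be (2 + n + 1) (k + 3) = (n + 1).choose (k + 2) := by
            show (2 + n + 1 - 2).choose (k + 2) = _
            rw [show 2 + n + 1 - 2 = n + 1 by omega]
          have e4 : al (2 + n) (k + 2) = (n + 1).choose (k + 1) := by
            rw [show 2 + n = (n + 1) + 1 by omega]
            rfl
          have e5 : (2 + n - 2 : ℕ) = n := by omega
          have e6 : (2 + n + 1 - 2 : ℕ) = n + 1 := by omega
          have e7 : (2 + n : ℕ).choose (k + 2) = (n + 1).choose (k + 1) + (n + 1).choose (k + 2) := by
            rw [show 2 + n = (n + 1) + 1 by omega, Nat.choose_succ_succ]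
          have e8 : (n + 1).choose (k + 2) = n.choose (k + 1) + n.choose (k + 2) := Nat.choose_succ_succ _ _
          have e9 : (n + 1).choose (k + 1) = n.choose k + n.choose (k + 1) := Nat.choose_succ_succ _ _
          rw [show k + 1 + 1 + 1 = k + 3 by omega, show k + 1 + 1 = k + 2 by omega, e1, e2, e3, e4, e5,
            e6, e7, e8, e9, if_pos (by omega), if_pos (by omega), show k + 3 - 2 = k + 1 by omega,
            show k + 2 - 2 = k by omega, e9]
          push_cast
          ring

/-- the second moments of the exterior powers of two multisets with the same number of elements and the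
same sum -/
theorem s2_extM_sub (k : ℕ) (M N : Multiset ℝ) (hc : Multiset.card M = Multiset.card N)
    (hs : M.sum = N.sum) :
    s2 (extM k M) - s2 (extM k N) = be (Multiset.card N) k * (s2 M - s2 N) := by
  rcases Nat.lt_or_ge (Multiset.card N) 2 with h | h
  · have e : M = N := by
      rcases Nat.eq_zero_or_pos (Multiset.card N) with h0 | h0
      · rw [Multiset.card_eq_zero.1 h0]
        rw [h0] at hc
        exact Multiset.card_eq_zero.1 hc
      · have h1 : Multiset.card N = 1 := by omega
        obtain ⟨a, rfl⟩ := Multiset.card_eq_one.1 h1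
        rw [h1] at hc
        obtain ⟨b, rfl⟩ := Multiset.card_eq_one.1 hc
        simp only [Multiset.sum_singleton] at hs
        rw [hs]
    rw [e]
    ring
  · rw [s2_extM k M (by omega), s2_extM k N h, hc, hs]
    ring

end Pool.Agent.K3h30.VD
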