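import Pool.Agent.K3h30.VD.Roots
import Pool.Agent.K3h30.VD.Family
import Pool.Agent.K3h30.NH.Fails

/-!
# At a good place the Newton polygons form a family
-/

set_option autoImplicit false
set_option linter.all false

namespace Pool.Agent.K3h30.VD

open NumberField IsDedekindDomain Polynomial Filter Topology Finset
open Pool.Agent.W401.Cheb Pool.Agent.W528.Ord Pool.Agent.K3h30.NH
open Pool.Agent.W528.Ord.MultSystem (mv IsDeg1 IsOver)

section

variable {K : Type} [Field K] [NumberField K] {ℓ : ℕ} [Fact ℓ.Prime]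

theorem newt_eq (A : MotSystem K ℓ) (v : HeightOneSpectrum (𝓞 K)) {p : ℕ} [Fact p.Prime]
    (τ : AlgebraicClosure K →+* PadicAlgCl p) (σ : A.E →+* AlgebraicClosure K) (i : ℕ) :
    newt A v τ σ i = sl p (rn (A.poly v (τ.comp σ))) i := rfl

section fixed

variable {A : MotSystem K ℓ} {χ : GK K →* (PadicAlgCl ℓ)ˣ} {S : Finset ℕ} (hA : A.IsMotive χ S)
  {v : HeightOneSpectrum (𝓞 K)} (hv : IsDeg1 S v)
  {Q : Ideal (𝓞 (AlgebraicClosure K))} (hQ : IsOver Q v)
  {p : ℕ} [hpf : Fact p.Prime] (hpe : Ideal.absNorm v.asIdeal = p) {τ : AlgebraicClosure K →+* PadicAlgCl p}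
  (hτ : ∀ x : 𝓞 (AlgebraicClosure K), x ∈ Q ↔ ‖τ (x : AlgebraicClosure K)‖ < 1)

include hA hv hQ hpe hτ in
theorem coeff_ne (σ : A.E →+* AlgebraicClosure K) : (A.poly v (τ.comp σ)).coeff 0 ≠ 0 :=
  coeff_zero_ne (q_pos p) (poly_end hA hv hQ hpe hτ σ)

include hA hv in
theorem rn_len (σ : A.E →+* AlgebraicClosure K) : (rn (A.poly v (τ.comp σ))).length = A.n := by
  rw [rn_length _ (IsAlgClosed.splits _), poly_deg hA hv]

include hA hv hQ hpe hτ in
theorem np_newt (σ : A.E →+* AlgebraicClosure K) (k : ℕ) (hk : k ≤ A.n) :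
    np (newt A v τ σ) k = - Real.logb p (pk (rn (A.poly v (τ.comp σ))) k) := by
  have h0 := rn_pos _ (coeff_ne hA hv hQ hpe hτ σ)
  exact sl_sum h0 k (by rw [rn_len hA hv]; exact hk)

include hA hv hQ hpe hτ in
theorem pk_ends (σ : A.E →+* AlgebraicClosure K) :
    pk (rn (A.poly v (τ.comp σ))) A.n = (1 / (p : ℝ)) ^ (A.h σ).sum := by
  obtain ⟨h1', h2', h3', h4, h5⟩ := hA.isHodge σ
  have h := pk_eq (poly_monic hA hv σ) (poly_deg hA hv σ) (IsAlgClosed.splits _) (q_pos p) (q_lt p)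
    h2' h1' (poly_le hA hv hQ hpe hτ σ) (poly_end hA hv hQ hpe hτ σ) A.n le_rfl (by
      rw [Nat.sub_self, List.take_of_length_le (by omega)]
      exact not_low_end (poly_end hA hv hQ hpe hτ σ))
  rw [h, pk_pw, List.take_of_length_le (by omega)]

include hA hv hQ hpe hτ in
/-- the coefficient has at least the valuation of the Newton polygon, rounded up -/
theorem dvd_ceil (σ : A.E →+* AlgebraicClosure K) (k : ℕ) (hk : k ≤ A.n) :
    LocDvd Q (Ideal.absNorm v.asIdeal) ⌈np (newt A v τ σ) k⌉₊ (A.cof v (A.n - k) σ) := by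
  haveI := hQ.1.isPrime
  have hpQ := MultSystem.norm_mem hv.1 hQ.2
  by_cases hx : (A.P v).coeff (A.n - k) = 0
  · have e : A.cof v (A.n - k) σ = 0 := by
      unfold MotSystem.cof
      rw [hx, map_zero]
    rw [e]
    exact ⟨1, fun h => this.ne_top ((Ideal.eq_top_iff_one _).mpr h), by rw [mul_zero]; exact dvd_zero _⟩
  · obtain ⟨m, hm⟩ := exists_locEq σ Q _ hv.1 hpQ (hA.isUnram _ hv.1 hv.2) _ hx
    have hm' : LocEq Q (Ideal.absNorm v.asIdeal) m (A.cof v (A.n - k) σ) := hm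
    refine hm'.dvd.mono (Nat.ceil_le.2 ?_)
    rw [hpe] at hm'
    have h1 := norm_of_locEq (p := p) hτ hm'
    rw [← poly_coeff] at h1
    have h2 := coeff_le_pk (A.poly v (τ.comp σ)) (poly_monic hA hv σ) (poly_deg hA hv σ)
      (IsAlgClosed.splits _) (coeff_ne hA hv hQ hpe hτ σ) k hk
    rw [h1] at h2
    rw [np_newt hA hv hQ hpe hτ σ k hk, ← logb_q_pow (p := p) m]
    have h3 := Real.logb_le_logb_of_le (p_one (p := p)) (pow_pos (q_pos p) m) h2
    linarith

include hA hv hQ hpe hτ in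
theorem isPolygon_newt : IsPolygon A (newt A v τ) := by
  haveI := hQ.1.isPrime
  have hpQ := MultSystem.norm_mem hv.1 hQ.2
  refine ⟨?_, ?_, ?_, ?_⟩
  · intro σ i hi
    exact sl_mono (rn_sorted _) (rn_pos _ (coeff_ne hA hv hQ hpe hτ σ)) (by rw [rn_len hA hv]; exact hi)
  · intro σ k hk
    obtain ⟨h1', h2', h3', h4, h5⟩ := hA.isHodge σ
    exact above_of_mx (p := p) (rn_pos _ (coeff_ne hA hv hQ hpe hτ σ)) (rn_len hA hv σ) h2' h1'
      (fun r hr => mx_le_mx (poly_monic hA hv σ) (poly_deg hA hv σ) (IsAlgClosed.splits _) (q_pos p)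
        h1' (poly_le hA hv hQ hpe hτ σ) r hr) k hk
  · intro σ
    rw [np_newt hA hv hQ hpe hτ σ _ le_rfl, pk_ends hA hv hQ hpe hτ σ, logb_q_pow]
    unfold MotSystem.hp
    rw [List.take_of_length_le (le_of_eq (hA.isHodge σ).1)]
  · intro σ k hk0 hk hlt
    have h0 := coeff_ne hA hv hQ hpe hτ σ
    have h1 := sl_lt (rn_pos _ h0) hlt
    have h2 := coeff_break _ (poly_monic hA hv σ) (poly_deg hA hv σ) (IsAlgClosed.splits _) h0 k hk0 hk h1
    have hx : (A.P v).coeff (A.n - k) ≠ 0 := by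
      intro hx
      have e : A.cof v (A.n - k) σ = 0 := by
        unfold MotSystem.cof
        rw [hx, map_zero]
      rw [poly_coeff, e] at h2
      have e2 : ((0 : 𝓞 (AlgebraicClosure K)) : AlgebraicClosure K) = 0 := rfl
      rw [e2, map_zero, norm_zero] at h2
      exact (pk_pos _ (rn_pos _ h0) k).ne h2
    obtain ⟨m, hm⟩ := exists_locEq σ Q _ hv.1 hpQ (hA.isUnram _ hv.1 hv.2) _ hx
    have hm' : LocEq Q (Ideal.absNorm v.asIdeal) m (A.cof v (A.n - k) σ) := hm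
    rw [hpe] at hm'
    have h3 := norm_of_locEq (p := p) hτ hm'
    rw [← poly_coeff, h2] at h3
    refine ⟨m, ?_⟩
    rw [np_newt hA hv hQ hpe hτ σ k hk.le, h3, logb_q_pow]

include hA hv hQ hpe hτ in
theorem newt_stable {γ : GK K}
    (hγ : ∀ x : 𝓞 (AlgebraicClosure K), γ • x - x ^ Ideal.absNorm v.asIdeal ∈ Q)
    (σ : A.E →+* AlgebraicClosure K) (i : ℕ) (hi : i < A.n) :
    newt A v τ (mv γ σ) i = newt A v τ σ i := by
  have hco : ∀ j, ‖(A.poly v (τ.comp (mv γ σ))).coeff j‖ = ‖(A.poly v (τ.comp σ)).coeff j‖ := by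
    intro j
    have h1 := (mv_bij A γ).sum_comp (fun σ => ‖(A.poly v (τ.comp σ)).coeff j‖)
    have h2 := (Finset.sum_eq_sum_iff_of_le (s := Finset.univ)
      (f := fun σ : A.E →+* AlgebraicClosure K => ‖(A.poly v (τ.comp (mv γ σ))).coeff j‖)
      (g := fun σ => ‖(A.poly v (τ.comp σ)).coeff j‖)
      (fun σ _ => frob_norm hA hv hQ hpe hτ hγ σ j)).1 h1
    exact h2 σ (Finset.mem_univ _)
  rw [newt_eq, newt_eq]
  unfold sl
  rw [getD_of_coeff _ _ (poly_monic hA hv _) (poly_monic hA hv _) (poly_deg hA hv _)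
    (poly_deg hA hv _) (IsAlgClosed.splits _) (IsAlgClosed.splits _)
    (coeff_ne hA hv hQ hpe hτ _) (coeff_ne hA hv hQ hpe hτ _) hco i hi]

include hA hv hQ hpe hτ in
theorem newt_dual (σ : A.E →+* AlgebraicClosure K) (i : ℕ) (hi : i < A.n) :
    newt A v τ (σ.comp (A.conj : A.E →+* A.E)) i + newt A v τ σ (A.n - 1 - i) = A.w := by
  have hW : 0 < (1 / (p : ℝ)) ^ A.w := pow_pos (q_pos p) _
  have hp1 := pk_ends hA hv hQ hpe hτ σ
  have hend := poly_end hA hv hQ hpe hτ σ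
  have key := getD_dual (A.poly v (τ.comp σ))
    (A.poly v (τ.comp (σ.comp (A.conj : A.E →+* A.E)))) (poly_monic hA hv _) (poly_monic hA hv _)
    (poly_deg hA hv _) (poly_deg hA hv _) (IsAlgClosed.splits _) (IsAlgClosed.splits _)
    (coeff_ne hA hv hQ hpe hτ _) (coeff_ne hA hv hQ hpe hτ _) _ hW (fun k hk => by
      have h1 := conj_norm hA hv hQ hpe hτ σ k hk
      have h2 : A.hp σ A.n = (A.h σ).sum := by
        unfold MotSystem.hp
        rw [List.take_of_length_le (le_of_eq (hA.isHodge σ).1)]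
      rw [h2, ← hend, pow_mul] at h1
      exact h1) (by rw [hp1, hend]) i hi
  have hpos := getD_pos (rn_pos _ (coeff_ne hA hv hQ hpe hτ σ)) (A.n - 1 - i)
  rw [newt_eq, newt_eq]
  unfold sl
  rw [key, Real.logb_div hW.ne' hpos.ne']
  have := logb_q_pow (p := p) A.w
  linarith

end fixed

/-- **at a good place the Newton polygons form a family** -/
theorem isFamily_newt {ι : Type} [Fintype ι] (A : ι → MotSystem K ℓ) (χ : GK K →* (PadicAlgCl ℓ)ˣ)
    (S : Finset ℕ) (hA : ∀ i, (A i).IsMotive χ S) {v : HeightOneSpectrum (𝓞 K)} (hv : GoodPlace A S v)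
    {Q : Ideal (𝓞 (AlgebraicClosure K))} (hQ : IsOver Q v)
    {p : ℕ} [hpf : Fact p.Prime] (hpe : Ideal.absNorm v.asIdeal = p)
    {τ : AlgebraicClosure K →+* PadicAlgCl p}
    (hτ : ∀ x : 𝓞 (AlgebraicClosure K), x ∈ Q ↔ ‖τ (x : AlgebraicClosure K)‖ < 1)
    {γ : GK K} (hγ : ∀ x : 𝓞 (AlgebraicClosure K), γ • x - x ^ Ideal.absNorm v.asIdeal ∈ Q) (i : ι) :
    IsFamily (A i) γ (newt (A i) v τ) := by
  refine ⟨isPolygon_newt (hA i) hv.1 hQ hpe hτ, newt_stable (hA i) hv.1 hQ hpe hτ hγ,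
    newt_dual (hA i) hv.1 hQ hpe hτ, ?_⟩
  intro hex k hk0 hk
  exact hv.2 i hex k hk0 hk Q hQ _ fun σ => dvd_ceil (hA i) hv.1 hQ hpe hτ σ k hk.le

end

end Pool.Agent.K3h30.VD
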