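import Pool.Agent.K3h30.VD.Slopes

/-!
# The Newton polygon and the coefficients of a polynomial
-/

set_option autoImplicit false
set_option linter.all false

namespace Pool.Agent.K3h30.VD

open Finset Polynomial Pool.Agent.K3h30.NH

section lists

variable {L : List ℝ} {n : ℕ} (hs : L.Pairwise (· ≥ ·)) (h0 : ∀ x ∈ L, 0 < x) (hn : L.length = n)
  {r : ℝ} (hr : 0 < r) {k : ℕ}

include h0 hn hr in
theorem g_left (h1 : ∀ i < k, r < L.getD i 1) (hk : k ≤ n) (m j : ℕ) (hmj : m < j) (hj : j ≤ k) :
    pk L m * r ^ (n - m) < pk L j * r ^ (n - j) := by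
  have step : ∀ i, i < k → pk L i * r ^ (n - i) < pk L (i + 1) * r ^ (n - (i + 1)) := by
    intro i hi
    rw [pk_succ L i (by omega), show n - i = (n - (i + 1)) + 1 by omega, pow_succ]
    have h2 := h1 i hi
    have h3 := pk_pos L h0 i
    have h4 : 0 < r ^ (n - (i + 1)) := pow_pos hr _
    nlinarith [mul_pos h3 h4, mul_lt_mul_of_pos_left h2 (mul_pos h3 h4)]
  induction j, hmj using Nat.le_induction with
  | base => exact step m (by omega)
  | succ j hj' ih => exact (ih (by omega)).trans (step j (by omega))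

include h0 hn hr in
theorem g_right (h1 : ∀ i, k ≤ i → i < n → L.getD i 1 < r) (j m : ℕ) (hkj : k ≤ j) (hjm : j < m)
    (hm : m ≤ n) : pk L m * r ^ (n - m) < pk L j * r ^ (n - j) := by
  have step : ∀ i, k ≤ i → i < n → pk L (i + 1) * r ^ (n - (i + 1)) < pk L i * r ^ (n - i) := by
    intro i hi hi'
    rw [pk_succ L i (by omega), show n - i = (n - (i + 1)) + 1 by omega, pow_succ]
    have h2 := h1 i hi hi'
    have h3 := pk_pos L h0 i
    have h4 : 0 < r ^ (n - (i + 1)) := pow_pos hr _
    nlinarith [mul_pos h3 h4, mul_lt_mul_of_pos_left h2 (mul_pos h3 h4)]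
  induction m, hjm using Nat.le_induction with
  | base => exact step j hkj (by omega)
  | succ m hm' ih => exact (step m (by omega) (by omega)).trans (ih (by omega))

end lists

theorem mx_map_inv (L : List ℝ) (h0 : ∀ x ∈ L, 0 < x) (W r : ℝ) (hW : 0 < W) (hr : 0 < r) :
    mx (L.map fun x => W / x) r * L.prod = r ^ L.length * mx L (W / r) := by
  induction L with
  | nil => simp [mx]
  | cons a L ih =>
    have ha : 0 < a := h0 a List.mem_cons_self
    have h1 := ih fun x hx => h0 x (List.mem_cons_of_mem _ hx)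
    have e1 : mx ((a :: L).map fun x => W / x) r = max r (W / a) * mx (L.map fun x => W / x) r := by
      simp [mx]
    have e2 : mx (a :: L) (W / r) = max (W / r) a * mx L (W / r) := by simp [mx]
    have e3 : max r (W / a) * a = r * max (W / r) a := by
      rw [max_mul_of_nonneg _ _ ha.le, mul_max_of_nonneg _ _ hr.le, div_mul_cancel₀ _ ha.ne',
        mul_div_cancel₀ _ hr.ne', max_comm]
    rw [e1, e2, List.prod_cons, List.length_cons, pow_succ]
    calc max r (W / a) * mx (L.map fun x => W / x) r * (a * L.prod)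
        = (max r (W / a) * a) * (mx (L.map fun x => W / x) r * L.prod) := by ring
      _ = _ := by rw [e3, h1]; ring

theorem mx_reverse (L : List ℝ) (r : ℝ) : mx L.reverse r = mx L r := by
  unfold mx
  exact ((List.reverse_perm L).map _).prod_eq

/-- lists with the same function `∏ max r x` -/
theorem getD_of_mx {L M : List ℝ} {n : ℕ} (hL : L.Pairwise (· ≥ ·)) (hM : M.Pairwise (· ≥ ·))
    (hL0 : ∀ x ∈ L, 0 < x) (hM0 : ∀ x ∈ M, 0 < x) (hLn : L.length = n) (hMn : M.length = n)
    (h : ∀ r : ℝ, 0 < r → mx L r = mx M r) (i : ℕ) (hi : i < n) : L.getD i 1 = M.getD i 1 := by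
  have key : ∀ k ≤ n, pk L k = pk M k := fun k hk => le_antisymm
    (pk_le hM hL0 hM0 hLn hMn (fun r hr => (h r hr).le) k hk)
    (pk_le hL hM0 hL0 hMn hLn (fun r hr => (h r hr).ge) k hk)
  exact getD_eq hL0 hM0 hLn hMn i hi (key i hi.le) (key (i + 1) hi)

section poly

variable {L : Type*} [NormedField L] [IsUltrametricDist L]

/-- the coefficients are bounded by the products of the largest roots -/
theorem coeff_le_pk (f : L[X]) {n : ℕ} (hm : f.Monic) (hn : f.natDegree = n) (hs : f.Splits)
    (h0 : f.coeff 0 ≠ 0) (k : ℕ) (hk : k ≤ n) : ‖f.coeff (n - k)‖ ≤ pk (rn f) k := by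
  rcases k with _ | k
  · rw [Nat.sub_zero, ← hn, hm.coeff_natDegree, norm_one]
    simp [pk]
  · have hp := getD_pos (rn_pos f h0) k
    have hln : (rn f).length = n := by rw [rn_length f hs, hn]
    have h1 := mx_at (rn f) (rn_sorted f) k (by omega)
    have h2 := coeff_le f hm hs hp (n - (k + 1))
    rw [h1, hln] at h2
    exact le_of_mul_le_mul_right h2 (pow_pos hp _)

/-- at a break point the coefficient has the absolute value of the product of the largest roots -/
theorem coeff_break (f : L[X]) {n : ℕ} (hm : f.Monic) (hn : f.natDegree = n) (hs : f.Splits)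
    (h0 : f.coeff 0 ≠ 0) (k : ℕ) (hk0 : 0 < k) (hk : k < n)
    (hb : (rn f).getD k 1 < (rn f).getD (k - 1) 1) : ‖f.coeff (n - k)‖ = pk (rn f) k := by
  have hpos := rn_pos f h0
  have hln : (rn f).length = n := by rw [rn_length f hs, hn]
  obtain ⟨r, hr1, hr2⟩ := exists_between hb
  have hr : 0 < r := (getD_pos hpos k).trans hr1
  have hA : ∀ i < k, r < (rn f).getD i 1 := fun i hi =>
    lt_of_lt_of_le hr2 (getD_anti (rn_sorted f) (by omega) (by omega))
  have hB : ∀ i, k ≤ i → i < n → (rn f).getD i 1 < r := fun i hi hi' =>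
    lt_of_le_of_lt (getD_anti (rn_sorted f) hi (by omega)) hr1
  have h1 := mx_eq_take (rn f) (rn_sorted f) r k (by omega) (fun i hi => (hA i hi).le)
    (fun i hi hi' => (hB i hi (by omega)).le)
  rw [hln] at h1
  obtain ⟨j, hj⟩ := exists_coeff f hm hs hr
  rw [h1] at hj
  by_cases hjn : j ≤ n
  · have h2 := coeff_le_pk f hm hn hs h0 (n - j) (by omega)
    rw [show n - (n - j) = j by omega] at h2
    have h3 : pk (rn f) k * r ^ (n - k) ≤ pk (rn f) (n - j) * r ^ (n - (n - j)) := by
      rw [show n - (n - j) = j by omega, hj]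
      exact mul_le_mul_of_nonneg_right h2 (pow_nonneg hr.le _)
    rcases lt_trichotomy (n - j) k with h4 | h4 | h4
    · exact absurd (g_left hpos hln hr hA hk.le (n - j) k h4 le_rfl) (not_lt.2 h3)
    · have h5 : j = n - k := by omega
      rw [h5] at hj
      exact (mul_right_cancel₀ (pow_pos hr _).ne' hj).symm
    · exact absurd (g_right hpos hln hr hB k (n - j) le_rfl h4 (Nat.sub_le _ _)) (not_lt.2 h3)
  · rw [coeff_eq_zero_of_natDegree_lt (by omega), norm_zero, zero_mul] at hj
    exact absurd hj (mul_pos (pk_pos _ hpos k) (pow_pos hr _)).ne'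

/-- polynomials with the same absolute values of the coefficients -/
theorem getD_of_coeff (f g : L[X]) {n : ℕ} (hfm : f.Monic) (hgm : g.Monic) (hfn : f.natDegree = n)
    (hgn : g.natDegree = n) (hfs : f.Splits) (hgs : g.Splits) (hf0 : f.coeff 0 ≠ 0)
    (hg0 : g.coeff 0 ≠ 0) (h : ∀ j, ‖f.coeff j‖ = ‖g.coeff j‖) (i : ℕ) (hi : i < n) :
    (rn f).getD i 1 = (rn g).getD i 1 := by
  refine getD_of_mx (rn_sorted f) (rn_sorted g) (rn_pos f hf0) (rn_pos g hg0)
    (by rw [rn_length f hfs, hfn]) (by rw [rn_length g hgs, hgn]) ?_ i hi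
  intro r hr
  apply le_antisymm
  · obtain ⟨j, hj⟩ := exists_coeff f hfm hfs hr
    rw [hj, h]
    exact coeff_le g hgm hgs hr j
  · obtain ⟨j, hj⟩ := exists_coeff g hgm hgs hr
    rw [hj, ← h]
    exact coeff_le f hfm hfs hr j

/-- duality -/
theorem getD_dual (f g : L[X]) {n : ℕ} (hfm : f.Monic) (hgm : g.Monic) (hfn : f.natDegree = n)
    (hgn : g.natDegree = n) (hfs : f.Splits) (hgs : g.Splits) (hf0 : f.coeff 0 ≠ 0)
    (hg0 : g.coeff 0 ≠ 0) (W : ℝ) (hW : 0 < W)
    (h : ∀ k ≤ n, ‖g.coeff (n - k)‖ * ‖f.coeff 0‖ = W ^ k * ‖f.coeff k‖)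
    (hp : pk (rn f) n = ‖f.coeff 0‖) (i : ℕ) (hi : i < n) :
    (rn g).getD i 1 = W / (rn f).getD (n - 1 - i) 1 := by
  have hln : (rn f).length = n := by rw [rn_length f hfs, hfn]
  have hgln : (rn g).length = n := by rw [rn_length g hgs, hgn]
  have hpos := rn_pos f hf0
  set M := ((rn f).map fun x => W / x).reverse with hM
  have hMs : M.Pairwise (· ≥ ·) := by
    rw [hM, List.pairwise_reverse, List.pairwise_map]
    refine (rn_sorted f).imp_of_mem ?_
    intro a b ha hb hab
    exact div_le_div_of_nonneg_left hW.le (hpos b hb) hab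
  have hM0 : ∀ x ∈ M, 0 < x := by
    intro x hx
    rw [hM, List.mem_reverse, List.mem_map] at hx
    obtain ⟨y, hy, rfl⟩ := hx
    exact div_pos hW (hpos y hy)
  have hMn : M.length = n := by rw [hM, List.length_reverse, List.length_map, hln]
  have hc0 : 0 < ‖f.coeff 0‖ := norm_pos_iff.2 hf0
  have hprod : (rn f).prod = ‖f.coeff 0‖ := by
    rw [← hp]
    unfold pk
    rw [List.take_of_length_le (by omega)]
  have hmx : ∀ r : ℝ, 0 < r → mx (rn g) r = mx M r := by
    intro r hr
    have e1 : mx M r * ‖f.coeff 0‖ = r ^ n * mx (rn f) (W / r) := by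
      rw [hM, mx_reverse, ← hprod, mx_map_inv _ hpos W r hW hr, hln]
    have e2 : mx (rn g) r * ‖f.coeff 0‖ = r ^ n * mx (rn f) (W / r) := by
      have hWr : 0 < W / r := div_pos hW hr
      have hx : ∀ k ≤ n, r ^ n * (‖f.coeff k‖ * (W / r) ^ k) =
          ‖g.coeff (n - k)‖ * r ^ (n - k) * ‖f.coeff 0‖ := by
        intro k hk
        have h1 := h k hk
        have h2 : r ^ n = r ^ (n - k) * r ^ k := by rw [← pow_add]; congr 1; omega
        rw [h2, div_pow]
        have h3 : r ^ k ≠ 0 := (pow_pos hr k).ne'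
        calc r ^ (n - k) * r ^ k * (‖f.coeff k‖ * (W ^ k / r ^ k))
            = r ^ (n - k) * (W ^ k * ‖f.coeff k‖) * (r ^ k / r ^ k) := by ring
          _ = _ := by rw [div_self h3, ← h1]; ring
      apply le_antisymm
      · obtain ⟨j, hj⟩ := exists_coeff g hgm hgs hr
        rw [hj]
        by_cases hjn : j ≤ n
        · have h1 := hx (n - j) (Nat.sub_le _ _)
          rw [show n - (n - j) = j by omega] at h1
          rw [← h1]
          exact mul_le_mul_of_nonneg_left (coeff_le f hfm hfs hWr _) (pow_nonneg hr.le _)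
        · rw [coeff_eq_zero_of_natDegree_lt (by omega), norm_zero, zero_mul, zero_mul]
          have h2 := coeff_le f hfm hfs hWr 0
          have h3 : 0 ≤ ‖f.coeff 0‖ * (W / r) ^ 0 := by positivity
          exact mul_nonneg (pow_nonneg hr.le _) (h3.trans h2)
      · obtain ⟨j, hj⟩ := exists_coeff f hfm hfs hWr
        rw [hj]
        by_cases hjn : j ≤ n
        · rw [hx j hjn]
          exact mul_le_mul_of_nonneg_right (coeff_le g hgm hgs hr _) hc0.le
        · rw [coeff_eq_zero_of_natDegree_lt (by omega), norm_zero, zero_mul, mul_zero]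
          have h2 := coeff_le g hgm hgs hr 0
          have h3 : 0 ≤ ‖g.coeff 0‖ * r ^ 0 := by positivity
          exact mul_nonneg (h3.trans h2) hc0.le
    exact mul_right_cancel₀ hc0.ne' (e2.trans e1.symm)
  have key := getD_of_mx (rn_sorted g) hMs (rn_pos g hg0) hM0 hgln hMn hmx i hi
  rw [key, hM, List.getD_reverse _ (by rw [List.length_map, hln]; exact hi), List.length_map, hln,
    List.getD_eq_getElem _ _ (by rw [List.length_map, hln]; omega), List.getElem_map,
    List.getD_eq_getElem _ _ (by omega)]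

end poly

end Pool.Agent.K3h30.VD
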