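import Pool.Agent.K3h30.VD.Moment
import Pool.Agent.K3h30.NH.Newton
import Pool.Agent.K3h30.OC.Factor

/-!
# Slopes: the negative logarithms of the absolute values
-/

set_option autoImplicit false
set_option linter.all false

namespace Pool.Agent.K3h30.VD

open Finset Pool.Agent.K3h30.NH Pool.Agent.K3h30.OC

section

variable {p : ℕ} [hp : Fact p.Prime]

theorem p_one : (1 : ℝ) < p := by exact_mod_cast hp.out.one_lt

theorem rpow_sl {L : List ℝ} (h0 : ∀ x ∈ L, 0 < x) (i : ℕ) : (1 / (p : ℝ)) ^ (sl p L i) = L.getD i 1 := by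
  have h1 := p_one (p := p)
  have h2 := getD_pos h0 i
  unfold sl
  rw [one_div, Real.inv_rpow (by linarith), Real.rpow_neg (by linarith), inv_inv,
    Real.rpow_logb (by linarith) (by linarith) h2]

theorem sl_mono {L : List ℝ} (hs : L.Pairwise (· ≥ ·)) (h0 : ∀ x ∈ L, 0 < x) {i : ℕ}
    (hi : i + 1 < L.length) : sl p L i ≤ sl p L (i + 1) := by
  unfold sl
  have h1 := getD_anti hs (Nat.le_succ i) hi
  have h2 := getD_pos h0 (i + 1)
  have h3 := Real.logb_le_logb_of_le (p_one (p := p)) h2 h1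
  linarith

theorem sl_lt {L : List ℝ} (h0 : ∀ x ∈ L, 0 < x) {i j : ℕ} (h : sl p L i < sl p L j) :
    L.getD j 1 < L.getD i 1 := by
  unfold sl at h
  have h1 : Real.logb p (L.getD j 1) < Real.logb p (L.getD i 1) := by linarith
  exact (Real.logb_lt_logb_iff (p_one (p := p)) (getD_pos h0 j) (getD_pos h0 i)).1 h1

theorem sl_sum {L : List ℝ} (h0 : ∀ x ∈ L, 0 < x) (k : ℕ) (hk : k ≤ L.length) :
    ∑ i ∈ range k, sl p L i = - Real.logb p (pk L k) := by
  induction k with
  | zero => simp [pk]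
  | succ k ih =>
    rw [sum_range_succ, ih (by omega), pk_succ L k (by omega),
      Real.logb_mul (pk_pos L h0 k).ne' (getD_pos h0 k).ne']
    unfold sl
    ring

theorem logb_q_pow (k : ℕ) : - Real.logb p ((1 / (p : ℝ)) ^ k) = k := by
  have h1 := p_one (p := p)
  rw [one_div, Real.logb_pow, Real.logb_inv, Real.logb_self_eq_one h1]
  ring

theorem sl_pw (l : List ℕ) (i : ℕ) : sl p (pw (1 / (p : ℝ)) l) i = (l.getD i 0 : ℕ) := by
  unfold sl
  rw [pw_getD, logb_q_pow]

theorem map_sl (L : List ℝ) :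
    (Multiset.range L.length).map (sl p L) = (L : Multiset ℝ).map fun x => - Real.logb p x := by
  rw [← range_map L 1, Multiset.map_map]
  rfl

theorem sum_getD (l : List ℕ) (k : ℕ) : ∑ i ∈ range k, (l.getD i 0 : ℕ) = (l.take k).sum := by
  induction k with
  | zero => simp
  | succ k ih =>
    rw [sum_range_succ, ih, List.take_add_one, List.sum_append]
    congr 1
    by_cases hk : k < l.length
    · rw [List.getD_eq_getElem _ _ hk, List.getElem?_eq_getElem hk]
      simp
    · rw [List.getD_eq_default _ _ (by omega), List.getElem?_eq_none (by omega)]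
      simp

theorem sum_getD_real (l : List ℕ) (k : ℕ) :
    ∑ i ∈ range k, ((l.getD i 0 : ℕ) : ℝ) = ((l.take k).sum : ℕ) := by
  rw [← sum_getD]
  push_cast
  rfl

/-- comparison of the partial sums -/
theorem above_of_mx {L : List ℝ} {l : List ℕ} {n : ℕ} (h0 : ∀ x ∈ L, 0 < x) (hL : L.length = n)
    (hl : l.Pairwise (· ≤ ·)) (hln : l.length = n)
    (h : ∀ r : ℝ, 0 < r → mx L r ≤ mx (pw (1 / (p : ℝ)) l) r) (k : ℕ) (hk : k ≤ n) :
    (((l.take k).sum : ℕ) : ℝ) ≤ ∑ i ∈ range k, sl p L i := by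
  have hq : 0 < 1 / (p : ℝ) := by
    have := p_one (p := p)
    positivity
  have hq1 : 1 / (p : ℝ) < 1 := by
    have := p_one (p := p)
    rw [div_lt_one (by linarith)]
    exact this
  have h1 := pk_le (pw_sorted hq hq1 hl) h0 (pw_pos hq l) hL (by rw [pw_length, hln]) h k hk
  rw [sl_sum h0 k (by omega), ← logb_q_pow (p := p), ← pk_pw]
  have h2 := Real.logb_le_logb_of_le (p_one (p := p)) (pk_pos L h0 k) h1
  linarith

theorem map_hs (H : Multiset ℕ) :
    (Multiset.range (Multiset.card H)).map (fun i => hs H i) = H := by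
  have h := range_map (H.sort (· ≤ ·)) 0
  rw [Multiset.sort_eq] at h
  conv_rhs => rw [← h]
  rw [Multiset.length_sort]
  rfl

/-- the real slopes of the Hodge polygon -/
def ho (H : Multiset ℕ) : Multiset ℝ := H.map fun a : ℕ => (a : ℝ)

theorem card_ho (H : Multiset ℕ) : Multiset.card (ho H) = Multiset.card H := by
  unfold ho
  rw [Multiset.card_map]

theorem sum_ho (H : Multiset ℕ) : (ho H).sum = ∑ i ∈ range (Multiset.card H), (hs H i : ℝ) := by
  conv_lhs => rw [← map_hs H]
  unfold ho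
  rw [Multiset.map_map]
  rfl

theorem s2_ho (H : Multiset ℕ) : s2 (ho H) = ∑ i ∈ range (Multiset.card H), (hs H i : ℝ) ^ 2 := by
  conv_lhs => rw [← map_hs H]
  unfold ho s2
  rw [Multiset.map_map, Multiset.map_map]
  rfl

/-- the slopes of a multiset of absolute values -/
noncomputable def nu (p : ℕ) (N : Multiset ℝ) : Multiset ℝ := N.map fun x => - Real.logb p x

theorem card_nu (N : Multiset ℝ) : Multiset.card (nu p N) = Multiset.card N := by
  unfold nu
  rw [Multiset.card_map]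

theorem sort_pos {N : Multiset ℝ} (h0 : ∀ x ∈ N, 0 < x) : ∀ x ∈ N.sort (· ≥ ·), 0 < x :=
  fun x hx => h0 x ((Multiset.mem_sort _).1 hx)

theorem map_ns (N : Multiset ℝ) : (Multiset.range (Multiset.card N)).map (ns p N) = nu p N := by
  have h := map_sl (p := p) (N.sort (· ≥ ·))
  rw [Multiset.sort_eq, Multiset.length_sort] at h
  exact h

theorem sum_nu (N : Multiset ℝ) : (nu p N).sum = ∑ i ∈ range (Multiset.card N), ns p N i := by
  rw [← map_ns]
  rfl

theorem s2_nu (N : Multiset ℝ) : s2 (nu p N) = ∑ i ∈ range (Multiset.card N), ns p N i ^ 2 := by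
  rw [← map_ns]
  unfold s2
  rw [Multiset.map_map]
  rfl

theorem ns_mono {N : Multiset ℝ} (h0 : ∀ x ∈ N, 0 < x) {i : ℕ} (hi : i + 1 < Multiset.card N) :
    ns p N i ≤ ns p N (i + 1) :=
  sl_mono (Multiset.pairwise_sort _ _) (sort_pos h0) (by rw [Multiset.length_sort]; exact hi)

theorem map_rpow_ns {N : Multiset ℝ} (h0 : ∀ x ∈ N, 0 < x) :
    (Multiset.range (Multiset.card N)).map (fun i => (1 / (p : ℝ)) ^ (ns p N i)) = N := by
  have h := range_map (N.sort (· ≥ ·)) 1
  rw [Multiset.sort_eq] at h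
  conv_rhs => rw [← h]
  rw [Multiset.length_sort]
  apply Multiset.map_congr rfl
  intro i _
  exact rpow_sl (sort_pos h0) i

theorem mx_sort (N : Multiset ℝ) (r : ℝ) : mx (N.sort (· ≥ ·)) r = gn r N := by
  unfold mx gn
  rw [← Multiset.prod_coe, ← Multiset.map_coe, Multiset.sort_eq]

theorem mx_pw_sort (q : ℝ) (H : Multiset ℕ) (r : ℝ) :
    mx (pw q (H.sort (· ≤ ·))) r = gn r (H.map fun a => q ^ a) := by
  unfold mx gn pw
  rw [← Multiset.prod_coe, ← Multiset.map_coe, ← Multiset.map_coe, Multiset.sort_eq]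

section mazur

variable {N : Multiset ℝ} {H : Multiset ℕ} (h0 : ∀ x ∈ N, 0 < x)
  (hc : Multiset.card N = Multiset.card H)
  (h : ∀ r : ℝ, 0 < r → gn r N ≤ gn r (H.map fun a => (1 / (p : ℝ)) ^ a))

include h0 hc h in
theorem above (k : ℕ) (hk : k ≤ Multiset.card H) :
    ∑ i ∈ range k, (hs H i : ℝ) ≤ ∑ i ∈ range k, ns p N i := by
  have h1 := above_of_mx (p := p) (sort_pos h0) (n := Multiset.card H)
    (by rw [Multiset.length_sort, hc]) (l := H.sort (· ≤ ·)) (Multiset.pairwise_sort _ _)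
    (by rw [Multiset.length_sort]) (fun r hr => by rw [mx_sort, mx_pw_sort]; exact h r hr) k hk
  have h2 := sum_getD_real (H.sort (· ≤ ·)) k
  unfold hs
  rw [h2]
  exact h1

include h0 hc h in
theorem sum_above : (ho H).sum ≤ (nu p N).sum := by
  rw [sum_ho, sum_nu, hc]
  exact above h0 hc h _ le_rfl

include h0 hc h in
theorem moment_mazur (he : (nu p N).sum = (ho H).sum) :
    ∑ i ∈ range (Multiset.card H), ((hs H i : ℝ) - ns p N i) ^ 2 ≤ s2 (ho H) - s2 (nu p N) := by
  rw [s2_ho, s2_nu, hc]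
  rw [sum_ho, sum_nu, hc] at he
  exact moment _ (fun i => (hs H i : ℝ)) (ns p N) (fun i hi => ns_mono h0 (by rw [hc]; exact hi))
    (above h0 hc h) he

include h0 hc h in
theorem s2_le (he : (nu p N).sum = (ho H).sum) : 0 ≤ s2 (ho H) - s2 (nu p N) :=
  le_trans (sum_nonneg fun i _ => sq_nonneg _) (moment_mazur h0 hc h he)

end mazur

end

end Pool.Agent.K3h30.VD
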